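import Pool.Agent.R893.LR.Neg

/-!
# The catchment set of the ideal triangle group is not closed
-/

namespace Pool.Agent.R893.LR

open scoped LinearAlgebra.Projectivization
open Filter Topology

namespace GeomCoxeter

variable {n : ℕ} (C : GeomCoxeter n)

/-- The set of directions of the roots `Φ = W·Δ`. -/
def rootDirections : Set (ℙ ℝ (Fin n → ℝ)) :=
  {z | ∃ g ∈ C.W, ∃ s, z = act g (Projectivization.mk ℝ (root s) (root_ne_zero s))}

/-- The set `E_Φ` of limit roots: the accumulation points of the set of root directions. -/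
def EPhi : Set (ℙ ℝ (Fin n → ℝ)) := {x | AccPt x (𝓟 C.rootDirections)}

/-- The set `E_x` of accumulation points of the orbit of `x`. -/
def EOrb (x : ℙ ℝ (Fin n → ℝ)) : Set (ℙ ℝ (Fin n → ℝ)) :=
  {y | AccPt y (𝓟 {z | ∃ g ∈ C.W, z = act g x})}

/-- The catchment set `F_Φ` of limit roots. -/
def FPhi : Set (ℙ ℝ (Fin n → ℝ)) := {x | C.EOrb x = C.EPhi}

end GeomCoxeter

lemma EOrb_closed {n : ℕ} (C : GeomCoxeter n) (x : ℙ ℝ (Fin n → ℝ)) : IsClosed (C.EOrb x) :=
  isClosed_derivedSet _

lemma act_inj {n : ℕ} (g : (Fin n → ℝ) ≃ₗ[ℝ] (Fin n → ℝ)) : Function.Injective (act g) := by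
  intro x y h
  have := congrArg (act g⁻¹) h
  rwa [← act_mul, ← act_mul, inv_mul_cancel, act_one, act_one] at this

lemma EOrb_invariant {n : ℕ} {C : GeomCoxeter n} {x y : ℙ ℝ (Fin n → ℝ)}
    {g : (Fin n → ℝ) ≃ₗ[ℝ] (Fin n → ℝ)} (hg : g ∈ C.W) (h : y ∈ C.EOrb x) :
    act g y ∈ C.EOrb x := by
  show AccPt _ _
  rw [accPt_iff_nhds]
  intro U hU
  have h1 : act g ⁻¹' U ∈ 𝓝 y := (continuous_act g).continuousAt hU
  obtain ⟨z, ⟨hz1, g', hg', rfl⟩, hz3⟩ := accPt_iff_nhds.1 h _ h1
  exact ⟨_, ⟨hz1, g * g', C.W.mul_mem hg hg', (act_mul _ _ _).symm⟩, fun h2 => hz3 (act_inj g h2)⟩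

lemma EOrb_act {n : ℕ} {C : GeomCoxeter n} {x : ℙ ℝ (Fin n → ℝ)}
    {g : (Fin n → ℝ) ≃ₗ[ℝ] (Fin n → ℝ)} (hg : g ∈ C.W) : C.EOrb (act g x) = C.EOrb x := by
  have : {z | ∃ g' ∈ C.W, z = act g' (act g x)} = {z | ∃ g' ∈ C.W, z = act g' x} := by
    ext z
    constructor
    · rintro ⟨g', hg', rfl⟩
      exact ⟨g' * g, C.W.mul_mem hg' hg, (act_mul _ _ _).symm⟩
    · rintro ⟨g', hg', rfl⟩
      refine ⟨g' * g⁻¹, C.W.mul_mem hg' (C.W.inv_mem hg), ?_⟩
      rw [← act_mul, inv_mul_cancel_right]
  unfold GeomCoxeter.EOrb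
  rw [this]

/-- the powers of `T` on arbitrary vectors -/
lemma Tpow (k : ℕ) (y : V3) : (T ^ k) y =
    ![y 0 - 2 * k * (y 2 - y 0 - y 1) + 4 * k ^ 2 * y 1, y 1,
      (y 0 - 2 * k * (y 2 - y 0 - y 1) + 4 * k ^ 2 * y 1) + ((y 2 - y 0 - y 1) - 4 * k * y 1)
        + y 1] := by
  induction k with
  | zero => ext i; fin_cases i <;> (simp; try ring)
  | succ k ih =>
    rw [pow_succ']
    show tri.refl 0 (tri.refl 2 ((T ^ k) y)) = _
    rw [ih, refl2, refl0]
    ext i
    fin_cases i <;> simp <;> ring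

/-- the cusp -/
def n1 : V3 := ![1, 0, 1]

lemma n1_ne : n1 ≠ 0 := by
  intro h
  have := congrFun h 0
  simp [n1] at this

noncomputable def cusp : ℙ ℝ V3 := Projectivization.mk ℝ n1 n1_ne

lemma T_cusp (k : ℕ) : act (T ^ k) cusp = cusp := by
  unfold cusp
  rw [act_mk]
  congr 1
  rw [Tpow]
  ext i; fin_cases i <;> simp [n1]

lemma tendsto_T {y : V3} (hy : y ≠ 0) (h : Projectivization.mk ℝ y hy ≠ cusp) :
    Tendsto (fun k : ℕ => act (T ^ (k + 1)) (Projectivization.mk ℝ y hy)) atTop (𝓝 cusp) := by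
  have inv : Tendsto (fun k : ℕ => ((k : ℝ) + 1)⁻¹) atTop (𝓝 0) := by
    have := tendsto_one_div_add_atTop_nhds_zero_nat (𝕜 := ℝ)
    simpa using this
  by_cases hC : y 1 = 0
  · -- linear growth
    have hB : y 2 - y 0 ≠ 0 := by
      intro hB
      apply h
      unfold cusp
      rw [Projectivization.mk_eq_mk_iff']
      refine ⟨y 0, ?_⟩
      ext i; fin_cases i
      · simp [n1]
      · simp [n1, hC]
      · simp [n1]; linarith
    set B := y 2 - y 0 with hBdef
    have hcoef : ∀ k : ℕ, ((k : ℝ) + 1)⁻¹ * (-(2 * B))⁻¹ ≠ 0 := fun k =>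
      mul_ne_zero (inv_ne_zero (by positivity))
        (inv_ne_zero (neg_ne_zero.2 (mul_ne_zero two_ne_zero hB)))
    have h1 : ∀ k : ℕ, act (T ^ (k + 1)) (Projectivization.mk ℝ y hy) = Projectivization.mk ℝ
        ((((k : ℝ) + 1)⁻¹ * (-(2 * B))⁻¹) • (T ^ (k + 1)) y)
        (smul_ne_zero (hcoef k) (by simpa using hy)) := by
      intro k
      rw [act_mk, Projectivization.mk_eq_mk_iff']
      refine ⟨(((k : ℝ) + 1)⁻¹ * (-(2 * B))⁻¹)⁻¹, ?_⟩
      rw [smul_smul, inv_mul_cancel₀ (hcoef k), one_smul]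
    simp_rw [h1]
    apply tendsto_mk
    rw [tendsto_pi_nhds]
    intro i
    have key : ∀ c : ℝ, Tendsto (fun k : ℕ => ((k : ℝ) + 1)⁻¹ * (-(2 * B))⁻¹ * c + 1) atTop
        (𝓝 1) := by
      intro c
      have := ((inv.mul_const ((-(2 * B))⁻¹)).mul_const c).add_const 1
      simpa using this
    fin_cases i
    · have h3 : n1 0 = 1 := rfl
      simp only [Fin.zero_eta, Fin.isValue, h3]
      refine (key (y 0)).congr fun k => ?_
      rw [Tpow]
      have : (k : ℝ) + 1 ≠ 0 := by positivity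
      simp [hC]
      field_simp
      rw [hBdef]; ring
    · have h3 : n1 1 = 0 := rfl
      simp only [Fin.mk_one, Fin.isValue, h3]
      refine tendsto_const_nhds.congr fun k => ?_
      rw [Tpow]
      simp [hC]
    · have h3 : n1 2 = 1 := rfl
      simp only [Fin.reduceFinMk, h3]
      refine (key (y 0 + B)).congr fun k => ?_
      rw [Tpow]
      have : (k : ℝ) + 1 ≠ 0 := by positivity
      simp [hC]
      field_simp
      rw [hBdef]; ring
  · have h1 : ∀ k : ℕ, act (T ^ (k + 1)) (Projectivization.mk ℝ y hy) = Projectivization.mk ℝ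
        ((((k : ℝ) + 1)⁻¹ ^ 2 * (4 * y 1)⁻¹) • (T ^ (k + 1)) y)
        (smul_ne_zero (by positivity) (by simpa using hy)) := by
      intro k
      rw [act_mk, Projectivization.mk_eq_mk_iff']
      refine ⟨(((k : ℝ) + 1)⁻¹ ^ 2 * (4 * y 1)⁻¹)⁻¹, ?_⟩
      rw [smul_smul, inv_mul_cancel₀ (by positivity), one_smul]
    simp_rw [h1]
    apply tendsto_mk
    rw [tendsto_pi_nhds]
    intro i
    have key : ∀ c d e : ℝ, Tendsto (fun k : ℕ => ((k : ℝ) + 1)⁻¹ ^ 2 * (4 * y 1)⁻¹ * c
        + ((k : ℝ) + 1)⁻¹ * (4 * y 1)⁻¹ * d + e) atTop (𝓝 e) := by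
      intro c d e
      have := ((((inv.pow 2).mul_const ((4 * y 1)⁻¹)).mul_const c).add
        ((inv.mul_const ((4 * y 1)⁻¹)).mul_const d)).add_const e
      simpa using this
    fin_cases i
    · have h3 : n1 0 = 1 := rfl
      simp only [Fin.zero_eta, Fin.isValue, h3]
      refine (key (y 0) (-2 * (y 2 - y 0 - y 1)) 1).congr fun k => ?_
      rw [Tpow]
      have : (k : ℝ) + 1 ≠ 0 := by positivity
      simp
      field_simp
      ring
    · have h3 : n1 1 = 0 := rfl
      simp only [Fin.mk_one, Fin.isValue, h3]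
      refine (key (y 1) 0 0).congr fun k => ?_
      rw [Tpow]
      simp
    · have h3 : n1 2 = 1 := rfl
      simp only [Fin.reduceFinMk, h3]
      refine (key (y 2) (-2 * (y 2 - y 0 - y 1) - 4 * y 1) 1).congr fun k => ?_
      rw [Tpow]
      have : (k : ℝ) + 1 ≠ 0 := by positivity
      simp
      field_simp
      ring

lemma mem_EOrb_of_tendsto {n : ℕ} {C : GeomCoxeter n} {p x : ℙ ℝ (Fin n → ℝ)}
    {g : ℕ → ((Fin n → ℝ) ≃ₗ[ℝ] (Fin n → ℝ))} (hg : ∀ k, g k ∈ C.W)
    (h : Tendsto (fun k => act (g k) p) atTop (𝓝 x)) (hne : ∀ k, act (g k) p ≠ x) :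
    x ∈ C.EOrb p := by
  show AccPt _ _
  rw [accPt_iff_nhds]
  intro U hU
  obtain ⟨k, hk⟩ := (h.eventually hU).exists
  exact ⟨_, ⟨hk, g k, hg k, rfl⟩, hne k⟩

lemma cusp_mem_aux {y : V3} (hy : y ≠ 0) (h : Projectivization.mk ℝ y hy ≠ cusp) :
    cusp ∈ tri.EOrb (Projectivization.mk ℝ y hy) := by
  refine mem_EOrb_of_tendsto (g := fun k => T ^ (k + 1)) (fun k => tri.W.pow_mem T_mem _)
    (tendsto_T hy h) fun k h2 => h ?_
  apply act_inj (T ^ (k + 1))
  rw [h2, T_cusp]

lemma n1_rr : n1 = rr 1 0 1 0 := by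
  ext i; fin_cases i <;> simp [n1, rr]

lemma cusp_mem (x : ℙ ℝ V3) : cusp ∈ tri.EOrb x := by
  induction x using Projectivization.ind with
  | h y hy =>
  by_cases h : Projectivization.mk ℝ y hy = cusp
  · have h1 : act S cusp ≠ cusp := by
      intro h2
      unfold cusp at h2
      rw [act_mk, Projectivization.mk_eq_mk_iff'] at h2
      obtain ⟨a, ha⟩ := h2
      rw [n1_rr, S_rr] at ha
      have := congrFun ha 1
      simp [rr] at this
    rw [h, ← EOrb_act S_mem]
    unfold cusp at h1 ⊢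
    rw [act_mk] at h1 ⊢
    exact cusp_mem_aux _ h1
  · exact cusp_mem_aux hy h

lemma Sinv_rr (a b c d : ℝ) : S⁻¹ (rr a b c d) = rr a (b + 2 * a) c (d + 2 * c) := by
  apply S.injective
  show S (S.symm _) = _
  rw [LinearEquiv.apply_symm_apply, S_rr]
  congr 1 <;> ring

lemma Tinv_rr (a b c d : ℝ) : T⁻¹ (rr a b c d) = rr (a + 2 * b) b (c + 2 * d) d := by
  apply T.injective
  show T (T.symm _) = _
  rw [LinearEquiv.apply_symm_apply, T_rr]
  congr 1 <;> ring

/-- the orbit of the cusp -/
lemma orbit_n1 (N : ℕ) : ∀ m k : ℤ, m.natAbs + k.natAbs ≤ N → Odd m → Even k → IsCoprime m k →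
    ∃ g ∈ tri.W, g n1 = rr m k m k := by
  induction N with
  | zero =>
    intro m k h ho
    have : m = 0 := by omega
    rw [this] at ho
    exact absurd ho (by decide)
  | succ N ih =>
    intro m k h ho he hc
    by_cases hk : k = 0
    · subst hk
      rw [isCoprime_zero_right] at hc
      refine ⟨1, tri.W.one_mem, ?_⟩
      show n1 = _
      rw [n1_rr]
      rcases Int.isUnit_iff.1 hc with rfl | rfl
      · ext i; fin_cases i <;> simp [rr]
      · ext i; fin_cases i <;> simp [rr]
    · have hm : m ≠ 0 := by rintro rfl; exact absurd ho (by decide)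
      have hne : m.natAbs ≠ k.natAbs := by
        intro h2
        have h3 : Odd m.natAbs := Int.natAbs_odd.2 ho
        have h4 : Even k.natAbs := Int.natAbs_even.2 he
        rw [h2] at h3
        exact (Nat.not_odd_iff_even.2 h4) h3
      rcases lt_or_gt_of_ne hne with hlt | hlt
      · -- |m| < |k|
        by_cases hs : 0 < m * k
        · obtain ⟨g, hg, hgn⟩ := ih m (k - 2 * m) (by
            rcases lt_or_gt_of_ne hm with h5 | h5
            · have : k < 0 := by nlinarith
              omega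
            · have : 0 < k := by nlinarith
              omega) ho (by
                obtain ⟨r, hr⟩ := he
                exact ⟨r - m, by rw [hr]; ring⟩) (by
                have := hc.add_mul_left_right (-2)
                have e : k + m * -2 = k - 2 * m := by ring
                rwa [e] at this)
          refine ⟨S⁻¹ * g, tri.W.mul_mem (tri.W.inv_mem S_mem) hg, ?_⟩
          show S⁻¹ (g n1) = _
          rw [hgn, Sinv_rr]
          push_cast
          congr 1 <;> ring
        · obtain ⟨g, hg, hgn⟩ := ih m (k + 2 * m) (by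
            rcases lt_or_gt_of_ne hm with h5 | h5
            · have : 0 < k := by
                rcases lt_or_gt_of_ne hk with h6 | h6
                · exact absurd (mul_pos_of_neg_of_neg h5 h6) hs
                · exact h6
              omega
            · have : k < 0 := by
                rcases lt_or_gt_of_ne hk with h6 | h6
                · exact h6
                · exact absurd (mul_pos h5 h6) hs
              omega) ho (by
                obtain ⟨r, hr⟩ := he
                exact ⟨r + m, by rw [hr]; ring⟩) (by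
                have := hc.add_mul_left_right 2
                have e : k + m * 2 = k + 2 * m := by ring
                rwa [e] at this)
          refine ⟨S * g, tri.W.mul_mem S_mem hg, ?_⟩
          show S (g n1) = _
          rw [hgn, S_rr]
          push_cast
          congr 1 <;> ring
      · by_cases hs : 0 < m * k
        · obtain ⟨g, hg, hgn⟩ := ih (m - 2 * k) k (by
            rcases lt_or_gt_of_ne hm with h5 | h5
            · have : k < 0 := by nlinarith
              omega
            · have : 0 < k := by nlinarith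
              omega) (by
                obtain ⟨r, hr⟩ := ho
                exact ⟨r - k, by rw [hr]; ring⟩) he (by
                have := hc.add_mul_left_left (-2)
                have e : m + k * -2 = m - 2 * k := by ring
                rwa [e] at this)
          refine ⟨T⁻¹ * g, tri.W.mul_mem (tri.W.inv_mem T_mem) hg, ?_⟩
          show T⁻¹ (g n1) = _
          rw [hgn, Tinv_rr]
          push_cast
          congr 1 <;> ring
        · obtain ⟨g, hg, hgn⟩ := ih (m + 2 * k) k (by
            rcases lt_or_gt_of_ne hm with h5 | h5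
            · have : 0 < k := by
                rcases lt_or_gt_of_ne hk with h6 | h6
                · exact absurd (mul_pos_of_neg_of_neg h5 h6) hs
                · exact h6
              omega
            · have : k < 0 := by
                rcases lt_or_gt_of_ne hk with h6 | h6
                · exact h6
                · exact absurd (mul_pos h5 h6) hs
              omega) (by
                obtain ⟨r, hr⟩ := ho
                exact ⟨r + k, by rw [hr]; ring⟩) he (by
                have := hc.add_mul_left_left 2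
                have e : m + k * 2 = m + 2 * k := by ring
                rwa [e] at this)
          refine ⟨T * g, tri.W.mul_mem T_mem hg, ?_⟩
          show T (g n1) = _
          rw [hgn, T_rr]
          push_cast
          congr 1 <;> ring

lemma rr_ne {a b : ℝ} (hb : b ≠ 0) : rr a b a b ≠ 0 := by
  intro h
  have := congrFun h 1
  simp [rr] at this
  exact hb this

/-- rational directions with odd numerator and denominator a power of two -/
lemma mk_rational (x : ℙ ℝ V3) (m : ℤ) (j : ℕ) (hm : Odd m) :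
    Projectivization.mk ℝ (rr ((m : ℝ) / 2 ^ (j + 1)) 1 ((m : ℝ) / 2 ^ (j + 1)) 1)
      (rr_ne one_ne_zero) ∈ tri.EOrb x := by
  have hc : IsCoprime m ((2 : ℤ) ^ (j + 1)) := by
    apply IsCoprime.pow_right
    rw [Int.isCoprime_iff_gcd_eq_one, Int.gcd_comm]
    have : Odd m.natAbs := Int.natAbs_odd.2 hm
    show Nat.gcd 2 m.natAbs = 1
    exact (Nat.coprime_two_left.2 this)
  obtain ⟨g, hg, hgn⟩ := orbit_n1 _ m (2 ^ (j + 1)) le_rfl hm (by
    rw [pow_succ]; exact even_two.mul_left _) hc
  have h1 := EOrb_invariant hg (cusp_mem x)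
  have h2 : act g cusp = Projectivization.mk ℝ (rr ((m : ℝ) / 2 ^ (j + 1)) 1
      ((m : ℝ) / 2 ^ (j + 1)) 1) (rr_ne one_ne_zero) := by
    unfold cusp
    rw [act_mk, Projectivization.mk_eq_mk_iff']
    refine ⟨(2 ^ (j + 1)) ^ 2, ?_⟩
    rw [hgn]
    have h0 : (2 : ℝ) ^ (j + 1) ≠ 0 := by positivity
    ext i
    fin_cases i <;> simp [rr] <;> field_simp
  rwa [h2] at h1

lemma param_mem (x : ℙ ℝ V3) (t : ℝ) :
    Projectivization.mk ℝ (rr t 1 t 1) (rr_ne one_ne_zero) ∈ tri.EOrb x := by
  set m : ℕ → ℤ := fun j => 2 * ⌊t * 2 ^ j⌋ + 1 with hm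
  have h1 : Tendsto (fun j => (m j : ℝ) / 2 ^ (j + 1)) atTop (𝓝 t) := by
    have hb : ∀ j, |(m j : ℝ) / 2 ^ (j + 1) - t| ≤ (1 / 2) ^ j := by
      intro j
      have h2 := Int.floor_le (t * 2 ^ j)
      have h3 := Int.lt_floor_add_one (t * 2 ^ j)
      have h0 : (0 : ℝ) < 2 ^ j := by positivity
      have e : (m j : ℝ) / 2 ^ (j + 1) - t = ((⌊t * 2 ^ j⌋ : ℝ) - t * 2 ^ j + 1 / 2) / 2 ^ j := by
        rw [hm]; push_cast; rw [pow_succ]; field_simp; ring
      rw [e, abs_div, abs_of_pos h0, one_div, inv_pow, div_le_iff₀ h0,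
        inv_mul_cancel₀ h0.ne', abs_le]
      constructor <;> linarith
    rw [tendsto_iff_norm_sub_tendsto_zero]
    refine squeeze_zero (fun _ => norm_nonneg _) hb ?_
    exact tendsto_pow_atTop_nhds_zero_of_lt_one (by norm_num) (by norm_num)
  have h2 : Tendsto (fun j => Projectivization.mk ℝ
      (rr ((m j : ℝ) / 2 ^ (j + 1)) 1 ((m j : ℝ) / 2 ^ (j + 1)) 1) (rr_ne one_ne_zero)) atTop
      (𝓝 (Projectivization.mk ℝ (rr t 1 t 1) (rr_ne one_ne_zero))) := by
    apply tendsto_mk
    have hc : Continuous fun t : ℝ => rr t 1 t 1 := by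
      refine continuous_pi fun i => ?_
      fin_cases i <;> simp [rr] <;> fun_prop
    exact (hc.tendsto t).comp h1
  exact (EOrb_closed tri x).mem_of_tendsto h2 (Eventually.of_forall fun j =>
    mk_rational x (m j) j ⟨_, rfl⟩)

/-- all light-like directions are accumulation points of every orbit -/
lemma null_mem {x z : ℙ ℝ V3} (hz : fr z = 0) : z ∈ tri.EOrb x := by
  induction z using Projectivization.ind with
  | h u hu =>
  rw [fr_mk, div_eq_zero_iff] at hz
  have hu0 : tri.form u u = 0 := hz.resolve_right (nrm_pos hu).ne'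
  rw [form_tri] at hu0
  have h4 : (u 2 - u 0 - u 1) ^ 2 = 4 * (u 0 * u 1) := by nlinarith
  by_cases h1 : u 1 = 0
  · -- the cusp itself
    have h5 : u 2 = u 0 := by
      rw [h1] at h4
      have : u 2 - u 0 - 0 = 0 := by
        have h6 : (u 2 - u 0 - 0) ^ 2 = 0 := by rw [h4]; ring
        exact pow_eq_zero_iff (two_ne_zero) |>.1 h6
      linarith
    have h6 : Projectivization.mk ℝ u hu = cusp := by
      unfold cusp
      rw [Projectivization.mk_eq_mk_iff']
      refine ⟨u 0, ?_⟩
      ext i; fin_cases i <;> simp [n1, h1, h5]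
    rw [h6]; exact cusp_mem x
  · have h6 : Projectivization.mk ℝ u hu = Projectivization.mk ℝ
        (rr ((u 2 - u 0 - u 1) / (2 * u 1)) 1 ((u 2 - u 0 - u 1) / (2 * u 1)) 1)
        (rr_ne one_ne_zero) := by
      rw [Projectivization.mk_eq_mk_iff']
      refine ⟨u 1, ?_⟩
      ext i; fin_cases i
      · simp [rr]
        field_simp
        linarith
      · simp [rr]
      · simp [rr]
        field_simp
        linarith
    rw [h6]; exact param_mem x _

/-- for integral directions the accumulation points are exactly the light-like directions -/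
lemma EOrb_int {y : V3} (hy : y ≠ 0) (hi : IsInt y) :
    tri.EOrb (Projectivization.mk ℝ y hy) = {z | fr z = 0} := by
  ext z
  exact ⟨fun h => acc_int hy hi h, fun h => null_mem h⟩

lemma EPhi_eq : tri.EPhi = {z | fr z = 0} := by
  ext z
  constructor
  · intro h
    show fr z = 0
    -- root directions are in three orbits
    have h1 : tri.rootDirections = ⋃ s : Fin 3, orb tri (Projectivization.mk ℝ (GeomCoxeter.root s)
        (root_ne_zero s)) := by
      ext w
      simp only [Set.mem_iUnion]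
      constructor
      · rintro ⟨g, hg, s, rfl⟩
        exact ⟨s, g, hg, rfl⟩
      · rintro ⟨s, g, hg, rfl⟩
        exact ⟨g, hg, s, rfl⟩
    have h2 : AccPt z (𝓟 tri.rootDirections) := h
    by_contra hne
    have h3 : ∀ s : Fin 3, ¬ AccPt z (𝓟 (orb tri (Projectivization.mk ℝ (GeomCoxeter.root s)
        (root_ne_zero s)))) := fun s h4 => hne (acc_int (root_ne_zero s) (root_int s) h4)
    simp only [accPt_iff_frequently, not_frequently] at h3
    rw [accPt_iff_frequently] at h2
    apply h2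
    have h4 := eventually_all.2 h3
    refine h4.mono fun w hw h5 => ?_
    rw [h1] at h5
    obtain ⟨s, hs⟩ := Set.mem_iUnion.1 h5.2
    exact hw s ⟨h5.1, hs⟩
  · intro h
    have h1 : AccPt z (𝓟 (orb tri (Projectivization.mk ℝ (GeomCoxeter.root 0)
        (root_ne_zero 0)))) := null_mem (x := Projectivization.mk ℝ (GeomCoxeter.root 0)
        (root_ne_zero 0)) h
    refine h1.mono ?_
    rw [principal_mono]
    rintro w ⟨g, hg, rfl⟩
    exact ⟨g, hg, 0, rfl⟩

lemma base_not_mem : basePt ∉ tri.FPhi := by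
  intro h
  have h1 : limPt ∈ tri.EOrb basePt := accPt_of_isLimitFrom limPt_mem
  have h2 : tri.EOrb basePt = tri.EPhi := h
  rw [h2, EPhi_eq] at h1
  have h3 : fr limPt = 0 := h1
  rw [fr_limPt] at h3
  norm_num at h3

theorem not_closed : ¬ IsClosed tri.FPhi := by
  intro hcl
  apply base_not_mem
  -- integral approximations of the base point
  set y : ℕ → V3 := fun j => ![(⌊(j + 1) * f 0⌋ : ℝ) + 1, 0, (⌊(j + 1) * (f 0 + f 1)⌋ : ℝ)] with hy
  have hf0 := f_pos 0
  have hyne : ∀ j, y j ≠ 0 := by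
    intro j h
    have h1 := congrFun h 0
    have h2 : (0 : ℝ) ≤ (⌊((j : ℝ) + 1) * f 0⌋ : ℝ) := by
      exact_mod_cast Int.floor_nonneg.2 (by positivity)
    simp [hy] at h1
    linarith
  have hyint : ∀ j, IsInt (y j) := by
    intro j i
    fin_cases i
    · exact ⟨⌊((j : ℝ) + 1) * f 0⌋ + 1, by simp [hy]⟩
    · exact ⟨0, by simp [hy]⟩
    · exact ⟨⌊((j : ℝ) + 1) * (f 0 + f 1)⌋, by simp [hy]⟩
  have hF : ∀ j, Projectivization.mk ℝ (y j) (hyne j) ∈ tri.FPhi := by
    intro j
    show tri.EOrb _ = tri.EPhi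
    rw [EOrb_int _ (hyint j), EPhi_eq]
  have inv : Tendsto (fun k : ℕ => ((k : ℝ) + 1)⁻¹) atTop (𝓝 0) := by
    have := tendsto_one_div_add_atTop_nhds_zero_nat (𝕜 := ℝ)
    simpa using this
  have hfl : ∀ c : ℝ, Tendsto (fun j : ℕ => ((j : ℝ) + 1)⁻¹ * (⌊((j : ℝ) + 1) * c⌋ : ℝ)) atTop
      (𝓝 c) := by
    intro c
    have h2 : Tendsto (fun j : ℕ => c - ((j : ℝ) + 1)⁻¹) atTop (𝓝 c) := by
      have := inv.const_sub c
      simpa using this
    refine tendsto_of_tendsto_of_tendsto_of_le_of_le h2 tendsto_const_nhds (fun j => ?_)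
      (fun j => ?_)
    · have h3 := Int.lt_floor_add_one (((j : ℝ) + 1) * c)
      have h4 : (0 : ℝ) < (j : ℝ) + 1 := by positivity
      show c - ((j : ℝ) + 1)⁻¹ ≤ ((j : ℝ) + 1)⁻¹ * (⌊((j : ℝ) + 1) * c⌋ : ℝ)
      rw [← sub_nonneg]
      have e : ((j : ℝ) + 1)⁻¹ * (⌊((j : ℝ) + 1) * c⌋ : ℝ) - (c - ((j : ℝ) + 1)⁻¹)
          = ((j : ℝ) + 1)⁻¹ * ((⌊((j : ℝ) + 1) * c⌋ : ℝ) + 1 - ((j : ℝ) + 1) * c) := by
        field_simp
        ring
      rw [e]
      have : 0 < (⌊((j : ℝ) + 1) * c⌋ : ℝ) + 1 - ((j : ℝ) + 1) * c := by linarith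
      positivity
    · have h3 := Int.floor_le (((j : ℝ) + 1) * c)
      have h4 : (0 : ℝ) < (j : ℝ) + 1 := by positivity
      show ((j : ℝ) + 1)⁻¹ * (⌊((j : ℝ) + 1) * c⌋ : ℝ) ≤ c
      rw [inv_mul_le_iff₀ h4]
      exact h3
  have hlim : Tendsto (fun j => Projectivization.mk ℝ (y j) (hyne j)) atTop (𝓝 basePt) := by
    have h1 : ∀ j : ℕ, Projectivization.mk ℝ (y j) (hyne j) = Projectivization.mk ℝ
        (((j : ℝ) + 1)⁻¹ • y j) (smul_ne_zero (by positivity) (hyne j)) := by
      intro j
      rw [Projectivization.mk_eq_mk_iff']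
      refine ⟨((j : ℝ) + 1), ?_⟩
      rw [smul_smul, mul_inv_cancel₀ (by positivity), one_smul]
    simp_rw [h1]
    unfold basePt
    apply tendsto_mk
    rw [tendsto_pi_nhds]
    intro i
    fin_cases i
    · have h2 : pt 0 0 = f 0 + 0 := by rw [pt0]; simp [H]
      simp only [Fin.zero_eta, Fin.isValue, h2]
      refine ((hfl (f 0)).add inv).congr fun j => ?_
      simp [hy]
      ring
    · have h2 : pt 0 1 = 0 := by rw [pt1]; simp [H]
      simp only [Fin.mk_one, Fin.isValue, h2]
      refine tendsto_const_nhds.congr fun j => ?_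
      simp [hy]
    · have h2 : pt 0 2 = f 0 + f 1 := by rw [pt2]; simp [H]; ring
      simp only [Fin.reduceFinMk, h2]
      refine (hfl (f 0 + f 1)).congr fun j => ?_
      simp [hy]
  exact hcl.mem_of_tendsto hlim (Eventually.of_forall hF)

end Pool.Agent.R893.LR
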