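import Mathlib

/-!
# Lorentzian geometric Coxeter systems: definitions
-/

namespace Pool.Agent.R893.LR

open scoped LinearAlgebra.Projectivization

/-- The usual (quotient) topology of the real projective space of `ℝ^n`. -/
noncomputable instance projTop (n : ℕ) : TopologicalSpace (ℙ ℝ (Fin n → ℝ)) :=
  TopologicalSpace.coinduced
    (fun v : {v : Fin n → ℝ // v ≠ 0} => Projectivization.mk ℝ v.1 v.2) inferInstance

/-- A geometric Coxeter system of rank `n`: a Coxeter matrix `M` (with the convention that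
`M s t = 0` means `m_{st} = ∞`) and a symmetric matrix `B` with `B_{ss} = 1`,
`B_{st} = -cos (π / m_{st})` if `m_{st}` is finite, and `B_{st} ≤ -1` if `m_{st} = ∞`. -/
structure GeomCoxeter (n : ℕ) where
  M : CoxeterMatrix (Fin n)
  B : Matrix (Fin n) (Fin n) ℝ
  symm : ∀ s t, B s t = B t s
  diag : ∀ s, B s s = 1
  finite : ∀ s t, s ≠ t → M s t ≠ 0 → B s t = -Real.cos (Real.pi / M s t)
  infinite : ∀ s t, s ≠ t → M s t = 0 → B s t ≤ -1

namespace GeomCoxeter

variable {n : ℕ} (C : GeomCoxeter n)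

/-- The bilinear form with `B(α_s, α_t) = B_{st}`; the basis `Δ` of simple roots is the standard
basis of `ℝ^n`. -/
def form (x y : Fin n → ℝ) : ℝ := ∑ s, ∑ t, C.B s t * x s * y t

/-- The simple root `α_s`. -/
def root (s : Fin n) : Fin n → ℝ := Pi.single s 1

/-- The map `x ↦ x - 2 B(α_s, x) α_s`. -/
def refl (s : Fin n) (x : Fin n → ℝ) : Fin n → ℝ := x - (2 * C.form (root s) x) • root s

/-- The Coxeter group `W`, as a group of linear maps of `V = ℝ^n` (the geometric representation is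
faithful): the subgroup of `GL(V)` generated by the reflections. -/
def W : Subgroup ((Fin n → ℝ) ≃ₗ[ℝ] (Fin n → ℝ)) :=
  Subgroup.closure {g | ∃ s, ∀ x, g x = C.refl s x}

/-- Lorentzian: the form has signature `(n-1, 1)`. -/
def Lorentzian : Prop :=
  ∃ v, C.form v v < 0 ∧ ∀ x, x ≠ 0 → C.form v x = 0 → 0 < C.form x x

end GeomCoxeter

/-- The action of an invertible linear map on the projective space. -/
noncomputable def act {n : ℕ} (g : (Fin n → ℝ) ≃ₗ[ℝ] (Fin n → ℝ)) (x : ℙ ℝ (Fin n → ℝ)) : ℙ ℝ (Fin n → ℝ) :=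
  Projectivization.map (g : (Fin n → ℝ) →ₗ[ℝ] (Fin n → ℝ)) g.injective x

lemma root_ne_zero {n : ℕ} (s : Fin n) : GeomCoxeter.root s ≠ 0 := by
  intro h
  have := congrFun h s
  simp [GeomCoxeter.root] at this

namespace GeomCoxeter

variable {n : ℕ} (C : GeomCoxeter n)

/-- `x` is the limit of an injective sequence of points of the orbit of the base point `p`. -/
def IsLimitFrom (p x : ℙ ℝ (Fin n → ℝ)) : Prop :=
  ∃ g : ℕ → ((Fin n → ℝ) ≃ₗ[ℝ] (Fin n → ℝ)), (∀ k, g k ∈ C.W) ∧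
    Function.Injective (fun k => act (g k) p) ∧
    Filter.Tendsto (fun k => act (g k) p) Filter.atTop (nhds x)

/-- The set `E_V` of limit directions. -/
def limitDirections : Set (ℙ ℝ (Fin n → ℝ)) := {x | ∃ p, C.IsLimitFrom p x}

/-- The set `E_Φ` of limit roots. -/
def limitRoots : Set (ℙ ℝ (Fin n → ℝ)) :=
  {x | ∃ s, C.IsLimitFrom (Projectivization.mk ℝ (root s) (root_ne_zero s)) x}

/-- `w` is hyperbolic: it has an eigenvalue of modulus `> 1`. -/
def Hyperbolic (w : (Fin n → ℝ) ≃ₗ[ℝ] (Fin n → ℝ)) : Prop :=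
  ∃ (μ : ℝ) (v : Fin n → ℝ), 1 < |μ| ∧ v ≠ 0 ∧ w v = μ • v

/-- The unimodular subspace `U_w` (as a set of vectors): the vectors orthogonal to all
eigenvectors of `w` for eigenvalues of modulus `≠ 1`. -/
def unimodular (w : (Fin n → ℝ) ≃ₗ[ℝ] (Fin n → ℝ)) : Set (Fin n → ℝ) :=
  {v | ∀ (μ : ℝ) (u : Fin n → ℝ), |μ| ≠ 1 → w u = μ • u → C.form v u = 0}

/-- The set `U_hyp`, the union of the `P U_w` over the hyperbolic elements `w` of `W`. -/
def Uhyp : Set (ℙ ℝ (Fin n → ℝ)) :=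
  {x | ∃ w ∈ C.W, Hyperbolic w ∧ ∃ (v : Fin n → ℝ) (hv : v ≠ 0), v ∈ C.unimodular w ∧
    x = Projectivization.mk ℝ v hv}

/-- `x` is a space-like direction. -/
def SpaceLike (x : ℙ ℝ (Fin n → ℝ)) : Prop :=
  ∃ (v : Fin n → ℝ) (hv : v ≠ 0), x = Projectivization.mk ℝ v hv ∧ 0 < C.form v v

/-- `x` arises through powers of `w`. -/
def ArisesThroughPowers (w : (Fin n → ℝ) ≃ₗ[ℝ] (Fin n → ℝ)) (x : ℙ ℝ (Fin n → ℝ)) : Prop :=
  ∃ (p : ℙ ℝ (Fin n → ℝ)) (k : ℕ → ℤ), StrictMono k ∧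
    Function.Injective (fun j => act (w ^ k j) p) ∧
    Filter.Tendsto (fun j => act (w ^ k j) p) Filter.atTop (nhds x)

end GeomCoxeter

end Pool.Agent.R893.LR
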