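import Pool.Agent.R893.LR.Seq

/-!
# The simple root is a limit direction of the ideal triangle group
-/

namespace Pool.Agent.R893.LR

open scoped LinearAlgebra.Projectivization
open Filter Topology

lemma pt0 (m : ℕ) : pt m 0 = f (2 * m) * H (2 * m) := by simp [pt, rr]
lemma pt1 (m : ℕ) : pt m 1 = -(f (2 * m + 1) * H (2 * m + 1)) := by simp [pt, rr]
lemma pt2 (m : ℕ) : pt m 2 = f (2 * m) * H (2 * m) - f (2 * m + 1) * H (2 * m + 1) - f 1
    + 2 * (f (2 * m + 1) * H (2 * m)) := by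
  rw [← det m]
  simp [pt, rr]
  ring

lemma H_pos' (m : ℕ) : 0 < H (2 * m) := by
  rcases m with _ | m
  · simp [H]
  · exact H_pos (2 * m)

lemma b1 (m : ℕ) (hm : 0 < m) : f (2 * m) * H (2 * m) ≤ f 1 * (m : ℝ)⁻¹ := by
  obtain ⟨k, rfl⟩ : ∃ k, m = k + 1 := ⟨m - 1, by omega⟩
  have h3 : H (2 * (k + 1) + 1) = H (2 * k + 1) + 2 * (2 * k + 1 + 1) * H (2 * (k + 1)) := rfl
  have h5 : ((k + 1 : ℕ) : ℝ) * H (2 * (k + 1)) ≤ H (2 * (k + 1) + 1) := by
    rw [h3]; push_cast
    have : (0 : ℝ) ≤ H (2 * k + 1) := by positivity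
    have : (0 : ℝ) ≤ H (2 * (k + 1)) := by positivity
    nlinarith
  have h6 := det (k + 1)
  have hf := f_pos (2 * (k + 1))
  have hf' := f_pos (2 * (k + 1) + 1)
  have h7 : 0 ≤ f (2 * (k + 1) + 1) * H (2 * (k + 1)) := by positivity
  have hk : (0 : ℝ) < ((k + 1 : ℕ) : ℝ) := by positivity
  rw [← div_eq_mul_inv, le_div_iff₀ hk]
  calc f (2 * (k + 1)) * H (2 * (k + 1)) * ((k + 1 : ℕ) : ℝ)
      = f (2 * (k + 1)) * (((k + 1 : ℕ) : ℝ) * H (2 * (k + 1))) := by ring
    _ ≤ f (2 * (k + 1)) * H (2 * (k + 1) + 1) := mul_le_mul_of_nonneg_left h5 hf.le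
    _ ≤ f 1 := by linarith

lemma f_le (m : ℕ) (hm : 0 < m) : f (2 * m + 1) * m ≤ f (2 * m) := by
  have h1 := f_rec (2 * m)
  have h2 := f_pos (2 * m + 2)
  have h3 := f_pos (2 * m + 1)
  rw [h1]
  push_cast
  have hk : (0 : ℝ) < m := by positivity
  nlinarith

lemma b2 (m : ℕ) (hm : 0 < m) : f (2 * m + 1) * H (2 * m + 1) ≤ f 1 * (m : ℝ)⁻¹ := by
  have h1 := f_le m hm
  have h6 := det m
  have hf' := f_pos (2 * m + 1)
  have h7 : 0 ≤ f (2 * m + 1) * H (2 * m) := by positivity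
  have hk : (0 : ℝ) < m := by positivity
  rw [← div_eq_mul_inv, le_div_iff₀ hk]
  calc f (2 * m + 1) * H (2 * m + 1) * m = (f (2 * m + 1) * m) * H (2 * m + 1) := by ring
    _ ≤ f (2 * m) * H (2 * m + 1) := mul_le_mul_of_nonneg_right h1 (by positivity)
    _ ≤ f 1 := by linarith

lemma b3 (m : ℕ) (hm : 0 < m) : f (2 * m + 1) * H (2 * m) ≤ f 1 * (m : ℝ)⁻¹ := by
  refine le_trans ?_ (b1 m hm)
  apply mul_le_mul_of_nonneg_right _ (by positivity)
  have h1 := f_le m hm
  have hm' : (1 : ℝ) ≤ m := by exact_mod_cast hm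
  have := f_pos (2 * m + 1)
  nlinarith

lemma tendsto_inv : Tendsto (fun m : ℕ => f 1 * (m : ℝ)⁻¹) atTop (𝓝 0) := by
  have := (tendsto_inv_atTop_nhds_zero_nat (𝕜 := ℝ)).const_mul (f 1)
  simpa using this

lemma t1 : Tendsto (fun m => f (2 * m) * (H (2 * m) : ℝ)) atTop (𝓝 0) :=
  tendsto_of_tendsto_of_tendsto_of_le_of_le' tendsto_const_nhds tendsto_inv
    (Eventually.of_forall fun m => by have := f_pos (2 * m); positivity)
    ((eventually_gt_atTop 0).mono fun m hm => b1 m hm)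

lemma t2 : Tendsto (fun m => f (2 * m + 1) * (H (2 * m + 1) : ℝ)) atTop (𝓝 0) :=
  tendsto_of_tendsto_of_tendsto_of_le_of_le' tendsto_const_nhds tendsto_inv
    (Eventually.of_forall fun m => by have := f_pos (2 * m + 1); positivity)
    ((eventually_gt_atTop 0).mono fun m hm => b2 m hm)

lemma t3 : Tendsto (fun m => f (2 * m + 1) * (H (2 * m) : ℝ)) atTop (𝓝 0) :=
  tendsto_of_tendsto_of_tendsto_of_le_of_le' tendsto_const_nhds tendsto_inv
    (Eventually.of_forall fun m => by have := f_pos (2 * m + 1); positivity)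
    ((eventually_gt_atTop 0).mono fun m hm => b3 m hm)

lemma tendsto_pt : Tendsto pt atTop (𝓝 ((-f 1) • GeomCoxeter.root 2)) := by
  rw [tendsto_pi_nhds]
  intro i
  fin_cases i
  · simp only [Fin.zero_eta, Fin.isValue, pt0]
    have : ((-f 1) • GeomCoxeter.root 2 : V3) 0 = 0 := by simp [GeomCoxeter.root]
    rw [this]; exact t1
  · simp only [Fin.mk_one, Fin.isValue, pt1]
    have : ((-f 1) • GeomCoxeter.root 2 : V3) 1 = -0 := by simp [GeomCoxeter.root]
    rw [this]; exact t2.neg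
  · simp only [Fin.reduceFinMk, pt2]
    have : ((-f 1) • GeomCoxeter.root 2 : V3) 2 = 0 - 0 - f 1 + 2 * 0 := by
      simp [GeomCoxeter.root]
    rw [this]; exact ((t1.sub t2).sub_const _).add (t3.const_mul 2)

lemma pt_ne (m : ℕ) : pt m ≠ 0 := by
  intro h
  have := congrFun h 0
  rw [pt0] at this
  have h1 := f_pos (2 * m)
  have h2 : (0 : ℝ) < H (2 * m) := by exact_mod_cast H_pos' m
  have h3 : 0 < f (2 * m) * H (2 * m) := by positivity
  exact h3.ne' this

/-- the base point -/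
noncomputable def basePt : ℙ ℝ V3 := Projectivization.mk ℝ (pt 0) (pt_ne 0)

/-- the limit direction: the third simple root -/
noncomputable def limPt : ℙ ℝ V3 := Projectivization.mk ℝ (GeomCoxeter.root 2) (root_ne_zero 2)

lemma act_base (m : ℕ) : act (gg m) basePt = Projectivization.mk ℝ (pt m) (pt_ne m) := by
  unfold basePt
  rw [act_mk]
  congr 1
  exact gg_pt m

lemma tendsto_base : Tendsto (fun m => act (gg m) basePt) atTop (𝓝 limPt) := by
  have h0 : (-f 1) • GeomCoxeter.root (n := 3) 2 ≠ 0 :=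
    smul_ne_zero (neg_ne_zero.2 (f_pos 1).ne') (root_ne_zero 2)
  have h1 : limPt = Projectivization.mk ℝ ((-f 1) • GeomCoxeter.root 2) h0 := by
    unfold limPt
    rw [Projectivization.mk_eq_mk_iff']
    refine ⟨(-f 1)⁻¹, ?_⟩
    rw [smul_smul, inv_mul_cancel₀ (neg_ne_zero.2 (f_pos 1).ne'), one_smul]
  rw [h1]
  simp_rw [act_base]
  exact tendsto_mk _ _ tendsto_pt

lemma base_ne (m : ℕ) : act (gg m) basePt ≠ limPt := by
  rw [act_base]
  intro h
  unfold limPt at h
  rw [Projectivization.mk_eq_mk_iff'] at h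
  obtain ⟨a, ha⟩ := h
  have := congrFun ha 0
  rw [pt0] at this
  simp [GeomCoxeter.root] at this
  rcases this with h1 | h1
  · exact (f_pos _).ne' h1
  · exact (H_pos' m).ne' h1

/-- the third simple root is a limit direction -/
theorem limPt_mem : tri.IsLimitFrom basePt limPt := by
  obtain ⟨φ, hφ, hinj⟩ := exists_injective_subseq tendsto_base base_ne
  exact ⟨fun k => gg (φ k), fun k => gg_mem _, hinj, tendsto_base.comp hφ.tendsto_atTop⟩

end Pool.Agent.R893.LR
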