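import Pool.Agent.R893.LR.Lim

/-!
# The simple root is not a limit root and not a unimodular direction
-/

namespace Pool.Agent.R893.LR

open scoped LinearAlgebra.Projectivization
open Filter Topology

/-- the orbit of a point -/
def orb {n : ℕ} (C : GeomCoxeter n) (p : ℙ ℝ (Fin n → ℝ)) : Set (ℙ ℝ (Fin n → ℝ)) :=
  {z | ∃ g ∈ C.W, z = act g p}

lemma accPt_of_isLimitFrom {n : ℕ} {C : GeomCoxeter n} {p x : ℙ ℝ (Fin n → ℝ)}
    (h : C.IsLimitFrom p x) : AccPt x (𝓟 (orb C p)) := by
  obtain ⟨g, hg, hinj, ht⟩ := h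
  rw [accPt_iff_nhds]
  intro U hU
  have h1 : ∀ᶠ k in atTop, act (g k) p ∈ U := ht hU
  obtain ⟨N, hN⟩ := eventually_atTop.1 h1
  by_cases h2 : act (g N) p = x
  · refine ⟨act (g (N + 1)) p, ⟨hN _ (by omega), g (N + 1), hg _, rfl⟩, ?_⟩
    rw [← h2]
    intro h3
    have := hinj h3
    omega
  · exact ⟨act (g N) p, ⟨hN _ le_rfl, g N, hg _, rfl⟩, h2⟩

lemma form_smul (t : ℝ) (v : V3) : tri.form (t • v) (t • v) = t ^ 2 * tri.form v v := by
  simp only [form_tri, Pi.smul_apply, smul_eq_mul]; ring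

lemma continuous_form : Continuous fun v : V3 => tri.form v v := by
  simp only [form_tri]; fun_prop

/-- the function `B(v,v)/|v|^2` on the projective plane -/
noncomputable def fr (x : ℙ ℝ V3) : ℝ := ratio (fun v => tri.form v v) form_smul x

lemma fr_mk (v : V3) (hv : v ≠ 0) : fr (Projectivization.mk ℝ v hv) = tri.form v v / nrm v := rfl

lemma continuous_fr : Continuous fr := continuous_ratio continuous_form form_smul

lemma finite_int (R : ℝ) : {v : V3 | IsInt v ∧ nrm v ≤ R}.Finite := by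
  obtain ⟨N, hN⟩ := exists_nat_ge R
  have h1 : ({v : Fin 3 → ℤ | ∀ i, v i ∈ Set.Icc (-(N : ℤ)) N}).Finite :=
    Set.Finite.pi' fun _ => Set.finite_Icc _ _
  refine (h1.image (fun v : Fin 3 → ℤ => (fun i => (v i : ℝ)))).subset ?_
  rintro v ⟨hv, hn⟩
  choose m hm using hv
  refine ⟨m, fun i => ?_, funext fun i => (hm i).symm⟩
  have h2 : v i ^ 2 ≤ N := by
    have : v i ^ 2 ≤ nrm v := Finset.single_le_sum (f := fun i => v i ^ 2)
      (fun j _ => sq_nonneg _) (Finset.mem_univ i)
    linarith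
  rw [hm i] at h2
  have h3 : (m i) ^ 2 ≤ (N : ℤ) := by exact_mod_cast h2
  have h4 : (0 : ℤ) ≤ N := by positivity
  constructor <;> nlinarith [sq_nonneg (m i), sq_nonneg (m i - 1), sq_nonneg (m i + 1)]

/-- accumulation points of orbits of integral directions are light-like -/
lemma acc_int {y : V3} (hy : y ≠ 0) (hi : IsInt y) {x : ℙ ℝ V3}
    (h : AccPt x (𝓟 (orb tri (Projectivization.mk ℝ y hy)))) : fr x = 0 := by
  by_contra hne
  set δ := |fr x| with hδ
  have hδ0 : 0 < δ := abs_pos.2 hne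
  set U : Set (ℙ ℝ V3) := {z | δ / 2 < |fr z|} with hU
  have hUo : IsOpen U := isOpen_lt continuous_const (continuous_abs.comp continuous_fr)
  have hxU : x ∈ U := by show δ / 2 < |fr x|; linarith
  have hfin : (U ∩ orb tri (Projectivization.mk ℝ y hy)).Finite := by
    have h1 := finite_int (|tri.form y y| / (δ / 2))
    have h2 : (U ∩ orb tri (Projectivization.mk ℝ y hy)) ⊆
        (fun v : V3 => if hv : v = 0 then x else Projectivization.mk ℝ v hv) ''
          {v : V3 | IsInt v ∧ nrm v ≤ |tri.form y y| / (δ / 2)} := by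
      rintro z ⟨hz, g, hg, rfl⟩
      have hgy : g y ≠ 0 := by simpa using hy
      refine ⟨g y, ⟨(W_prop hg).1 y hi, ?_⟩, ?_⟩
      · have h3 : δ / 2 < |fr (act g (Projectivization.mk ℝ y hy))| := hz
        rw [act_mk, fr_mk, (W_prop hg).2.2, abs_div, abs_of_pos (nrm_pos hgy),
          lt_div_iff₀ (nrm_pos hgy)] at h3
        rw [le_div_iff₀ (by positivity)]
        linarith
      · simp only [hgy, dif_neg, not_false_eq_true]
        rfl
    exact (h1.image _).subset h2
  have h3 : AccPt x (𝓟 (U ∩ orb tri (Projectivization.mk ℝ y hy))) :=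
    h.nhds_inter (hUo.mem_nhds hxU)
  rw [accPt_iff_nhds] at h3
  have h4 : ((U ∩ orb tri (Projectivization.mk ℝ y hy)) \ {x})ᶜ ∈ 𝓝 x := by
    apply (hfin.subset Set.sdiff_subset).isClosed.isOpen_compl.mem_nhds
    simp
  obtain ⟨z, ⟨hz1, hz2⟩, hz3⟩ := h3 _ h4
  exact hz1 ⟨hz2, hz3⟩

lemma root_int (s : Fin 3) : IsInt (GeomCoxeter.root s) := by
  intro i
  by_cases h : i = s
  · exact ⟨1, by simp [GeomCoxeter.root, h]⟩
  · exact ⟨0, by simp [GeomCoxeter.root, h]⟩

lemma fr_limPt : fr limPt = 1 := by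
  unfold limPt
  rw [fr_mk, form_tri]
  simp [GeomCoxeter.root, nrm, Fin.sum_univ_succ]

theorem limPt_not_limitRoot : limPt ∉ tri.limitRoots := by
  rintro ⟨s, hs⟩
  have := acc_int (root_ne_zero s) (root_int s) (accPt_of_isLimitFrom hs)
  rw [fr_limPt] at this
  norm_num at this

/-- null vectors orthogonal to `α_3` -/
lemma null_perp {u : V3} (h1 : tri.form (GeomCoxeter.root 2) u = 0) (h2 : tri.form u u = 0) :
    u = u 0 • ![1, 0, 1] ∨ u = u 1 • ![0, 1, 1] := by
  rw [form_tri] at h1 h2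
  simp [GeomCoxeter.root] at h1
  have h3 : u 2 = u 0 + u 1 := by linarith
  have h4 : u 0 * u 1 = 0 := by rw [h3] at h2; nlinarith
  rcases mul_eq_zero.1 h4 with h5 | h5
  · right
    ext i
    fin_cases i <;> simp [h5, h3]
  · left
    ext i
    fin_cases i <;> simp [h5, h3]

lemma int_n1 : IsInt ![1, 0, 1] := by
  intro i; fin_cases i
  · exact ⟨1, by simp⟩
  · exact ⟨0, by simp⟩
  · exact ⟨1, by simp⟩

lemma int_n2 : IsInt ![0, 1, 1] := by
  intro i; fin_cases i
  · exact ⟨0, by simp⟩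
  · exact ⟨1, by simp⟩
  · exact ⟨1, by simp⟩

/-- an integral vector with last coordinate `1` has no eigenvalue of modulus `> 1` -/
lemma no_eig {w : V3 ≃ₗ[ℝ] V3} (hw : w ∈ tri.W) {e : V3} (he : IsInt e) (h2 : e 2 = 1) {μ : ℝ}
    (hμ : 1 < |μ|) (h : w e = μ • e) : False := by
  have h0 : μ ≠ 0 := by rintro rfl; simp at hμ; linarith
  have h3 : w⁻¹ e = μ⁻¹ • e := by
    apply w.injective
    show w (w.symm e) = _
    rw [LinearEquiv.apply_symm_apply, map_smul, h, smul_smul, inv_mul_cancel₀ h0, one_smul]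
  obtain ⟨m, hm⟩ := (W_prop hw).2.1 e he 2
  rw [h3] at hm
  simp [h2] at hm
  have h4 : |μ⁻¹| < 1 := by rw [abs_inv]; exact inv_lt_one_of_one_lt₀ hμ
  rw [hm] at h4
  have h5 : |m| < 1 := by exact_mod_cast h4
  have h6 : m = 0 := by
    rw [abs_lt] at h5; omega
  rw [h6] at hm
  simp at hm
  exact h0 hm

theorem limPt_not_Uhyp : limPt ∉ tri.Uhyp := by
  rintro ⟨w, hw, ⟨μ, u, hμ, hu, hwu⟩, v, hv, hvU, hx⟩
  unfold limPt at hx
  rw [Projectivization.mk_eq_mk_iff'] at hx
  obtain ⟨a, ha⟩ := hx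
  have h1 : tri.form v u = 0 := hvU μ u (by intro h; rw [h] at hμ; exact lt_irrefl _ hμ) hwu
  have h2 : tri.form (GeomCoxeter.root 2) u = 0 := by
    rw [← ha]
    have : tri.form (a • v) u = a * tri.form v u := by
      simp only [form_tri, Pi.smul_apply, smul_eq_mul]; ring
    rw [this, h1, mul_zero]
  have h3 : tri.form u u = 0 := by
    have h4 := (W_prop hw).2.2 u u
    rw [hwu, form_smul] at h4
    have h5 : μ ^ 2 ≠ 1 := by
      intro h6
      have : |μ| = 1 := by
        have := congrArg Real.sqrt h6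
        rwa [Real.sqrt_sq_eq_abs, Real.sqrt_one] at this
      linarith
    have h7 : (μ ^ 2 - 1) * tri.form u u = 0 := by linarith
    rcases mul_eq_zero.1 h7 with h8 | h8
    · exact absurd (by linarith) h5
    · exact h8
  rcases null_perp h2 h3 with h4 | h4
  · have h5 : u 0 ≠ 0 := by intro h; rw [h, zero_smul] at h4; exact hu h4
    apply no_eig hw int_n1 (by simp) hμ
    have h6 := hwu
    rw [h4, map_smul, smul_comm] at h6
    have h7 := congrArg (fun z => (u 0)⁻¹ • z) h6
    simp only [smul_smul, inv_mul_cancel₀ h5, one_smul] at h7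
    rw [h7]
    congr 1
    field_simp
  · have h5 : u 1 ≠ 0 := by intro h; rw [h, zero_smul] at h4; exact hu h4
    apply no_eig hw int_n2 (by simp) hμ
    have h6 := hwu
    rw [h4, map_smul, smul_comm] at h6
    have h7 := congrArg (fun z => (u 1)⁻¹ • z) h6
    simp only [smul_smul, inv_mul_cancel₀ h5, one_smul] at h7
    rw [h7]
    congr 1
    field_simp

end Pool.Agent.R893.LR
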