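import Pool.Agent.R893.LR.Neg

/-!
# The simple root does not arise through powers of an element of infinite order
-/

namespace Pool.Agent.R893.LR

open scoped LinearAlgebra.Projectivization
open Filter Topology

/-- a convergent sequence of integral vectors is eventually constant -/
lemma int_eventually_const {v : ℕ → V3} (hv : ∀ j, IsInt (v j)) {z : V3}
    (h : Tendsto v atTop (𝓝 z)) : ∃ J, ∀ j ≥ J, v j = v J := by
  rw [tendsto_pi_nhds] at h
  have h1 : ∀ᶠ j in atTop, ∀ i, |v j i - z i| < 1 / 2 := by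
    rw [eventually_all]
    intro i
    have := (h i).eventually (Metric.ball_mem_nhds (z i) (by norm_num : (0 : ℝ) < 1 / 2))
    exact this.mono fun j hj => by simpa [Real.dist_eq] using hj
  obtain ⟨J, hJ⟩ := eventually_atTop.1 h1
  refine ⟨J, fun j hj => ?_⟩
  ext i
  obtain ⟨a, ha⟩ := hv j i
  obtain ⟨b, hb⟩ := hv J i
  have h2 := hJ j hj i
  have h3 := hJ J le_rfl i
  have h4 : |v j i - v J i| < 1 := by
    have : v j i - v J i = (v j i - z i) - (v J i - z i) := by ring
    rw [this]
    exact (abs_sub _ _).trans_lt (by linarith)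
  rw [ha, hb] at h4 ⊢
  have h5 : |a - b| < 1 := by exact_mod_cast h4
  have h6 : a = b := by rw [abs_lt] at h5; omega
  rw [h6]

/-- the main step: if `w^{k_j} p → α_3` then some positive power of `w` fixes `α_3` -/
lemma power_fixes {w : V3 ≃ₗ[ℝ] V3} (hw : w ∈ tri.W) {p x : V3} (hx : IsInt x) {k : ℕ → ℤ}
    (hk : StrictMono k) (h : Tendsto (fun j => (w ^ k j) p) atTop (𝓝 x)) :
    ∃ m : ℕ, 0 < m ∧ (w ^ m) x = x := by
  -- the subspace of vectors `y` for which `w^{k_j} y` converges
  let L : Submodule ℝ V3 :=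
    { carrier := {y | ∃ z, Tendsto (fun j => (w ^ k j) y) atTop (𝓝 z)}
      add_mem' := by
        rintro a b ⟨z, hz⟩ ⟨z', hz'⟩
        exact ⟨z + z', by simpa using hz.add hz'⟩
      zero_mem' := ⟨0, by simp⟩
      smul_mem' := by
        rintro c a ⟨z, hz⟩
        exact ⟨c • z, by simpa using hz.const_smul c⟩ }
  have hLw : ∀ i : ℤ, (w ^ i) p ∈ L := by
    intro i
    refine ⟨(w ^ i) x, ?_⟩
    have hc : Continuous (w ^ i : V3 ≃ₗ[ℝ] V3) :=
      LinearMap.continuous_of_finiteDimensional ((w ^ i : V3 ≃ₗ[ℝ] V3) : V3 →ₗ[ℝ] V3)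
    have h1 := (hc.tendsto x).comp h
    refine h1.congr fun j => ?_
    show (w ^ i * w ^ k j) p = (w ^ k j * w ^ i) p
    rw [← zpow_add, ← zpow_add, add_comm]
  have hxL : x ∈ L := by
    have hcl : IsClosed (L : Set V3) := Submodule.closed_of_finiteDimensional L
    exact hcl.mem_of_tendsto h (Eventually.of_forall fun j => hLw (k j))
  obtain ⟨z, hz⟩ := hxL
  obtain ⟨J, hJ⟩ := int_eventually_const
    (fun j => (W_prop (tri.W.zpow_mem hw (k j))).1 x hx) hz
  have h1 := hJ (J + 1) (by omega)
  have h2 : k J < k (J + 1) := hk (by omega)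
  refine ⟨(k (J + 1) - k J).toNat, by omega, ?_⟩
  have h3 : w ^ (k (J + 1) - k J).toNat = w ^ (k (J + 1) - k J) := by
    rw [← zpow_natCast, Int.toNat_of_nonneg (by omega)]
  rw [h3, sub_eq_neg_add, zpow_add]
  show (w ^ (-k J)) ((w ^ k (J + 1)) x) = x
  rw [h1]
  show (w ^ (-k J) * w ^ k J) x = x
  rw [← zpow_add, neg_add_cancel, zpow_zero]
  rfl

/-- an element of `W` fixing `α_3` has order dividing two -/
lemma sq_eq_one {u : V3 ≃ₗ[ℝ] V3} (hu : u ∈ tri.W)
    (h : u (GeomCoxeter.root 2) = GeomCoxeter.root 2) : u * u = 1 := by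
  set e1 : V3 := ![1, 0, 1] with he1
  set e2 : V3 := ![0, 1, 1] with he2
  have hf := (W_prop hu).2.2
  have hint := (W_prop hu).1
  have hint' := (W_prop hu).2.1
  -- images of null vectors
  have key : ∀ e : V3, IsInt e → e 2 = 1 → tri.form (GeomCoxeter.root 2) e = 0 →
      tri.form e e = 0 → ∃ c : ℝ, (c = 1 ∨ c = -1) ∧ (u e = c • e1 ∨ u e = c • e2) := by
    intro e hei he2' hp hn
    have h1 : tri.form (GeomCoxeter.root 2) (u e) = 0 := by
      rw [← hp, ← hf (GeomCoxeter.root 2) e, h]
    have h2 : tri.form (u e) (u e) = 0 := by rw [hf, hn]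
    have unit : ∀ (c : ℝ) (e' : V3), IsInt e' → (∃ m : ℤ, c = m) → u e = c • e' →
        c = 1 ∨ c = -1 := by
      rintro c e' he' ⟨m, rfl⟩ hc
      have h3 : e = (m : ℝ) • u⁻¹ e' := by
        apply u.injective
        show u e = u ((m : ℝ) • u.symm e')
        rw [map_smul, LinearEquiv.apply_symm_apply, hc]
      obtain ⟨b, hb⟩ := hint' e' he' 2
      have h4 := congrFun h3 2
      rw [he2', Pi.smul_apply, hb, smul_eq_mul] at h4
      have h5 : (1 : ℤ) = m * b := by exact_mod_cast h4
      have h6 : IsUnit m := IsUnit.of_mul_eq_one _ h5.symm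
      rcases Int.isUnit_iff.1 h6 with h7 | h7
      · left; rw [h7]; norm_num
      · right; rw [h7]; norm_num
    rcases null_perp h1 h2 with h3 | h3
    · exact ⟨u e 0, unit _ _ int_n1 (hint e hei 0) h3, Or.inl h3⟩
    · exact ⟨u e 1, unit _ _ int_n2 (hint e hei 1) h3, Or.inr h3⟩
  obtain ⟨c, hc, hu1⟩ := key e1 int_n1 (by simp [e1]) (by rw [form_tri]; simp [GeomCoxeter.root, e1])
    (by rw [form_tri]; simp [e1])
  obtain ⟨d, hd, hu2⟩ := key e2 int_n2 (by simp [e2]) (by rw [form_tri]; simp [GeomCoxeter.root, e2])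
    (by rw [form_tri]; simp [e2])
  have h12 : tri.form (u e1) (u e2) = -2 := by
    rw [hf, form_tri]; simp [e1, e2]; norm_num
  have hc2 : c * c = 1 := by rcases hc with rfl | rfl <;> norm_num
  have hd2 : d * d = 1 := by rcases hd with rfl | rfl <;> norm_num
  have main : u (u e1) = e1 ∧ u (u e2) = e2 := by
    rcases hu1 with hu1 | hu1 <;> rcases hu2 with hu2 | hu2
    · exfalso
      rw [hu1, hu2, form_tri] at h12
      simp [e1] at h12
    · rw [hu1, map_smul, hu1, smul_smul, hc2, one_smul, hu2, map_smul, hu2, smul_smul, hd2,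
        one_smul]
      exact ⟨rfl, rfl⟩
    · have hcd : c * d = 1 := by
        rw [hu1, hu2, form_tri] at h12
        simp [e1, e2] at h12
        linarith
      rw [hu1, map_smul, hu2, smul_smul, hcd, one_smul, map_smul, hu1, smul_smul, mul_comm d c, hcd,
        one_smul]
      exact ⟨rfl, rfl⟩
    · exfalso
      rw [hu1, hu2, form_tri] at h12
      simp [e2] at h12
  ext1 y
  show u (u y) = y
  have hy : y = y 0 • e1 + y 1 • e2 + (y 2 - y 0 - y 1) • GeomCoxeter.root 2 := by
    ext i
    fin_cases i <;> simp [e1, e2, GeomCoxeter.root]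
  rw [hy]
  simp only [map_add, map_smul, main.1, main.2, h]

/-- The simple root `α_3` does not arise through powers of an element of infinite order. -/
theorem limPt_not_powers {w : V3 ≃ₗ[ℝ] V3} (hw : w ∈ tri.W) (hinf : ¬ IsOfFinOrder w) :
    ¬ GeomCoxeter.ArisesThroughPowers w limPt := by
  rintro ⟨p, k, hk, hinj, ht⟩
  induction p using Projectivization.ind with
  | h p hp =>
  set v : ℕ → V3 := fun j => (w ^ k j) p with hv
  have hvne : ∀ j, v j ≠ 0 := fun j => by simpa [hv] using hp
  have ht' : Tendsto (fun j => Projectivization.mk ℝ (v j) (hvne j)) atTop (𝓝 limPt) := ht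
  have hform : ∀ j, tri.form (v j) (v j) = tri.form p p := fun j =>
    (W_prop (tri.W.zpow_mem hw (k j))).2.2 p p
  -- the norms converge
  have h1 : Tendsto (fun j => tri.form p p / nrm (v j)) atTop (𝓝 1) := by
    have := (continuous_fr.tendsto limPt).comp ht'
    rw [fr_limPt] at this
    refine this.congr fun j => ?_
    show fr (Projectivization.mk ℝ (v j) (hvne j)) = _
    rw [fr_mk, hform]
  have hpp : tri.form p p ≠ 0 := by
    intro h0
    rw [h0] at h1
    simp only [zero_div] at h1
    exact zero_ne_one (tendsto_nhds_unique tendsto_const_nhds h1)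
  have hnrm : Tendsto (fun j => nrm (v j)) atTop (𝓝 (tri.form p p)) := by
    have h2 := (h1.inv₀ one_ne_zero).const_mul (tri.form p p)
    rw [inv_one, mul_one] at h2
    refine h2.congr fun j => ?_
    have := (nrm_pos (hvne j)).ne'
    field_simp
  have hpos : 0 < tri.form p p := by
    have : 0 ≤ tri.form p p := ge_of_tendsto hnrm (Eventually.of_forall fun j => (nrm_pos (hvne j)).le)
    exact lt_of_le_of_ne this hpp.symm
  -- the coordinates converge
  have hcoord : ∀ i, Tendsto (fun j => v j i * v j i) atTop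
      (𝓝 (if i = 2 then tri.form p p else 0)) := by
    intro i
    have h2 := tendsto_ratio (q := fun v : V3 => v i * v i) (by fun_prop)
      (fun t v => by simp; ring) ht'
    have h3 := h2.mul hnrm
    have h4 : ratio (fun v : V3 => v i * v i) (fun t v => by simp; ring) limPt * tri.form p p
        = if i = 2 then tri.form p p else 0 := by
      unfold limPt
      rw [ratio_mk]
      by_cases hi : i = 2
      · simp [hi, GeomCoxeter.root, nrm, Fin.sum_univ_succ]
      · simp [hi, GeomCoxeter.root]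
    rw [h4] at h3
    refine h3.congr fun j => ?_
    rw [ratio_mk]
    have := (nrm_pos (hvne j)).ne'
    field_simp
  -- choose a sign
  obtain ⟨s, hs, φ, hφ, hsφ⟩ : ∃ s : ℝ, (s = 1 ∨ s = -1) ∧ ∃ φ : ℕ → ℕ, StrictMono φ ∧
      ∀ j, 0 ≤ s * v (φ j) 2 := by
    by_cases hfr : ∃ᶠ j in atTop, 0 ≤ v j 2
    · obtain ⟨φ, hφ, h3⟩ := extraction_of_frequently_atTop hfr
      exact ⟨1, Or.inl rfl, φ, hφ, fun j => by simpa using h3 j⟩
    · rw [not_frequently] at hfr
      obtain ⟨φ, hφ, h3⟩ := extraction_of_frequently_atTop hfr.frequently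
      refine ⟨-1, Or.inr rfl, φ, hφ, fun j => ?_⟩
      have := h3 j
      push Not at this
      linarith
  set r := Real.sqrt (tri.form p p) with hr
  have hr0 : 0 < r := Real.sqrt_pos.2 hpos
  set q : V3 := (s / r) • p with hq
  have hlim : Tendsto (fun j => (w ^ k (φ j)) q) atTop (𝓝 (GeomCoxeter.root 2)) := by
    rw [tendsto_pi_nhds]
    intro i
    have h3 := ((hcoord i).comp hφ.tendsto_atTop)
    have h4 : Tendsto (fun j => Real.sqrt (v (φ j) i * v (φ j) i)) atTop
        (𝓝 (Real.sqrt (if i = 2 then tri.form p p else 0))) :=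
      (Real.continuous_sqrt.tendsto _).comp h3
    have h5 : ∀ j, (w ^ k (φ j)) q i = s / r * v (φ j) i := by
      intro j
      rw [hq, map_smul]; rfl
    simp only [h5]
    by_cases hi : i = 2
    · subst hi
      simp only [if_true] at h4
      have h6 : ∀ j, Real.sqrt (v (φ j) 2 * v (φ j) 2) = s * v (φ j) 2 := by
        intro j
        have : v (φ j) 2 * v (φ j) 2 = (s * v (φ j) 2) * (s * v (φ j) 2) := by
          rcases hs with rfl | rfl <;> ring
        rw [this, Real.sqrt_mul_self (hsφ j)]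
      simp only [h6] at h4
      have h7 := h4.const_mul (1 / r)
      have h8 : 1 / r * Real.sqrt (tri.form p p) = GeomCoxeter.root (n := 3) 2 2 := by
        rw [← hr]; simp [GeomCoxeter.root, hr0.ne']
      rw [h8] at h7
      refine h7.congr fun j => ?_
      ring
    · simp only [hi, if_false, Real.sqrt_zero] at h4
      have h6 : ∀ j, Real.sqrt (v (φ j) i * v (φ j) i) = |v (φ j) i| := fun j =>
        Real.sqrt_mul_self_eq_abs _
      simp only [h6] at h4
      have h7 : Tendsto (fun j => v (φ j) i) atTop (𝓝 0) := tendsto_zero_iff_abs_tendsto_zero _ |>.2 h4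
      have h8 := h7.const_mul (s / r)
      have h9 : s / r * 0 = GeomCoxeter.root (n := 3) 2 i := by simp [GeomCoxeter.root, hi]
      rw [h9] at h8
      exact h8
  obtain ⟨m, hm, hmx⟩ := power_fixes hw (root_int 2) (hk.comp hφ) hlim
  have h9 := sq_eq_one (tri.W.pow_mem hw m) hmx
  apply hinf
  rw [isOfFinOrder_iff_pow_eq_one]
  exact ⟨m + m, by omega, by rw [pow_add]; exact h9⟩

lemma limPt_spaceLike : tri.SpaceLike limPt :=
  ⟨GeomCoxeter.root 2, root_ne_zero 2, rfl, by rw [form_tri]; simp [GeomCoxeter.root]⟩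

end Pool.Agent.R893.LR
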