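import Pool.Agent.R893.LR.Tri

/-!
# A space-like limit direction of the ideal triangle group
-/

namespace Pool.Agent.R893.LR

open scoped LinearAlgebra.Projectivization
open Filter Topology

/-- terms of the Bessel series -/
noncomputable def tm (k m : ℕ) : ℝ := (1 / 2) ^ (2 * m + k) / (m.factorial * (m + k).factorial)

lemma tm_pos (k m : ℕ) : 0 < tm k m := by unfold tm; positivity

lemma tm_le (k m : ℕ) : tm k m ≤ 1 ^ m / m.factorial := by
  unfold tm
  rw [one_pow]
  have h1 : (0 : ℝ) < m.factorial := by positivity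
  have h2 : (1 : ℝ) ≤ (m + k).factorial := by exact_mod_cast Nat.succ_le_of_lt (Nat.factorial_pos _)
  have h3 : ((1 : ℝ) / 2) ^ (2 * m + k) ≤ 1 := pow_le_one₀ (by norm_num) (by norm_num)
  apply div_le_div₀ zero_le_one h3 h1
  nlinarith

lemma tm_summable (k : ℕ) : Summable (tm k) :=
  Summable.of_nonneg_of_le (fun m => (tm_pos k m).le) (tm_le k) (Real.summable_pow_div_factorial 1)

/-- a positive solution of `f_k = 2 (k+1) f_{k+1} + f_{k+2}` -/
noncomputable def f (k : ℕ) : ℝ := ∑' m, tm k m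

lemma f_pos (k : ℕ) : 0 < f k := (tm_summable k).tsum_pos (fun m => (tm_pos k m).le) 0 (tm_pos k 0)

lemma f_rec (k : ℕ) : f k = 2 * (k + 1) * f (k + 1) + f (k + 2) := by
  have h0 : tm k 0 = 2 * (k + 1) * tm (k + 1) 0 := by
    unfold tm
    simp only [mul_zero, zero_add, Nat.factorial_zero, Nat.cast_one, one_mul]
    rw [Nat.factorial_succ]
    push_cast
    have : ((k : ℝ) + 1) ≠ 0 := by positivity
    have : (k.factorial : ℝ) ≠ 0 := by positivity
    field_simp
    ring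
  have h1 : ∀ m, tm k (m + 1) = 2 * (k + 1) * tm (k + 1) (m + 1) + tm (k + 2) m := by
    intro m
    unfold tm
    have e1 : m + 1 + (k + 1) = (m + 1 + k) + 1 := by ring
    have e2 : m + (k + 2) = (m + 1 + k) + 1 := by ring
    rw [e1, e2, Nat.factorial_succ (m + 1 + k), Nat.factorial_succ m]
    push_cast
    have a1 : ((m : ℝ) + 1 + k + 1) ≠ 0 := by positivity
    have a2 : ((m + 1 + k).factorial : ℝ) ≠ 0 := by positivity
    have a3 : (m.factorial : ℝ) ≠ 0 := by positivity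
    have a4 : ((m : ℝ) + 1) ≠ 0 := by positivity
    have p1 : ((1 : ℝ) / 2) ^ (2 * (m + 1) + (k + 1)) = (1 / 2) ^ (2 * m + k) * (1 / 8) := by
      rw [show 2 * (m + 1) + (k + 1) = (2 * m + k) + 3 by ring, pow_add]; norm_num
    have p2 : ((1 : ℝ) / 2) ^ (2 * (m + 1) + k) = (1 / 2) ^ (2 * m + k) * (1 / 4) := by
      rw [show 2 * (m + 1) + k = (2 * m + k) + 2 by ring, pow_add]; norm_num
    have p3 : ((1 : ℝ) / 2) ^ (2 * m + (k + 2)) = (1 / 2) ^ (2 * m + k) * (1 / 4) := by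
      rw [show 2 * m + (k + 2) = (2 * m + k) + 2 by ring, pow_add]; norm_num
    rw [p1, p2, p3]
    generalize ((1 : ℝ) / 2) ^ (2 * m + k) = z
    field_simp
    ring
  have s1 := (tm_summable k).tsum_eq_zero_add
  have s2 := (tm_summable (k + 1)).tsum_eq_zero_add
  have t1 : Summable fun m => tm (k + 1) (m + 1) := (summable_nat_add_iff 1).2 (tm_summable (k + 1))
  unfold f
  rw [s1, s2, h0]
  simp_rw [h1]
  rw [(t1.mul_left _).tsum_add (tm_summable (k + 2)), tsum_mul_left]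
  ring

/-- the integral solution (with signs removed) -/
def H : ℕ → ℕ
  | 0 => 1
  | 1 => 0
  | (k + 2) => H k + 2 * (k + 1) * H (k + 1)

lemma H_pos (k : ℕ) : 0 < H (k + 2) := by
  induction k with
  | zero => simp [H]
  | succ k ih => rw [H]; positivity

/-- `g_m p` for the base point `p` -/
noncomputable def pt (m : ℕ) : V3 := rr (f (2 * m)) (f (2 * m + 1)) (H (2 * m)) (-H (2 * m + 1))

lemma step (m : ℕ) : (S ^ (2 * m + 2) * T ^ (2 * m + 1)) (pt m) = pt (m + 1) := by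
  show (S ^ (2 * m + 2)) ((T ^ (2 * m + 1)) (pt m)) = _
  unfold pt
  rw [Tpow_rr, Spow_rr]
  have h1 := f_rec (2 * m)
  have h2 := f_rec (2 * m + 1)
  have h3 : H (2 * m + 2) = H (2 * m) + 2 * (2 * m + 1) * H (2 * m + 1) := rfl
  have h4 : H (2 * m + 3) = H (2 * m + 1) + 2 * (2 * m + 1 + 1) * H (2 * m + 2) := rfl
  have e1 : f (2 * m) - 2 * ((2 * m + 1 : ℕ) : ℝ) * f (2 * m + 1) = f (2 * m + 2) := by
    rw [h1]; push_cast; ring
  have e2 : (H (2 * m) : ℝ) - 2 * ((2 * m + 1 : ℕ) : ℝ) * -(H (2 * m + 1) : ℝ) = H (2 * m + 2) := by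
    rw [h3]; push_cast; ring
  rw [e1, e2]
  have e3 : f (2 * m + 1) - 2 * ((2 * m + 2 : ℕ) : ℝ) * f (2 * m + 2) = f (2 * m + 3) := by
    rw [h2]; push_cast; ring
  have e4 : -(H (2 * m + 1) : ℝ) - 2 * ((2 * m + 2 : ℕ) : ℝ) * (H (2 * m + 2) : ℝ)
      = -H (2 * m + 3) := by
    rw [h4]; push_cast; ring
  rw [e3, e4]
  rfl

/-- the group elements -/
noncomputable def gg : ℕ → (V3 ≃ₗ[ℝ] V3)
  | 0 => 1
  | (m + 1) => (S ^ (2 * m + 2) * T ^ (2 * m + 1)) * gg m

lemma gg_mem (m : ℕ) : gg m ∈ tri.W := by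
  induction m with
  | zero => exact tri.W.one_mem
  | succ m ih =>
    exact tri.W.mul_mem (tri.W.mul_mem (tri.W.pow_mem S_mem _) (tri.W.pow_mem T_mem _)) ih

lemma gg_pt (m : ℕ) : gg m (pt 0) = pt m := by
  induction m with
  | zero => rfl
  | succ m ih =>
    show (S ^ (2 * m + 2) * T ^ (2 * m + 1)) (gg m (pt 0)) = _
    rw [ih, step]

/-- the determinant is preserved -/
lemma det (m : ℕ) : f (2 * m) * H (2 * m + 1) + f (2 * m + 1) * H (2 * m) = f 1 := by
  induction m with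
  | zero => simp [H]
  | succ m ih =>
    have h1 := f_rec (2 * m)
    have h2 := f_rec (2 * m + 1)
    have h3 : H (2 * m + 2) = H (2 * m) + 2 * (2 * m + 1) * H (2 * m + 1) := rfl
    have h4 : H (2 * m + 3) = H (2 * m + 1) + 2 * (2 * m + 1 + 1) * H (2 * m + 2) := rfl
    show f (2 * m + 2) * H (2 * m + 3) + f (2 * m + 3) * H (2 * m + 2) = f 1
    have h2' : f (2 * m + 3) = f (2 * m + 1) - 2 * (2 * m + 2) * f (2 * m + 2) := by
      rw [h2]; push_cast; ring
    have h1' : f (2 * m + 2) = f (2 * m) - 2 * (2 * m + 1) * f (2 * m + 1) := by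
      rw [h1]; push_cast; ring
    rw [h4, h2', h1', h3]
    push_cast
    linear_combination ih

end Pool.Agent.R893.LR
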