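import Pool.Agent.R893.LR.Defs

/-!
# Convergence in real projective space
-/

namespace Pool.Agent.R893.LR

open scoped LinearAlgebra.Projectivization
open Filter Topology

variable {n : ℕ}

/-- the square of the euclidean norm -/
def nrm (v : Fin n → ℝ) : ℝ := ∑ i, v i ^ 2

lemma nrm_pos {v : Fin n → ℝ} (hv : v ≠ 0) : 0 < nrm v := by
  obtain ⟨i, hi⟩ := Function.ne_iff.1 hv
  exact Finset.sum_pos' (fun j _ => sq_nonneg _) ⟨i, Finset.mem_univ _, by
    have : v i ≠ 0 := hi
    positivity⟩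

lemma nrm_smul (t : ℝ) (v : Fin n → ℝ) : nrm (t • v) = t ^ 2 * nrm v := by
  simp [nrm, mul_pow, Finset.mul_sum]

lemma continuous_nrm : Continuous (nrm : (Fin n → ℝ) → ℝ) := by
  unfold nrm; fun_prop

lemma continuous_mk : Continuous (fun v : {v : Fin n → ℝ // v ≠ 0} =>
    Projectivization.mk ℝ v.1 v.2) := continuous_coinduced_rng

lemma tendsto_mk {v : ℕ → Fin n → ℝ} (hv : ∀ k, v k ≠ 0) {x : Fin n → ℝ} (hx : x ≠ 0)
    (h : Tendsto v atTop (𝓝 x)) :
    Tendsto (fun k => Projectivization.mk ℝ (v k) (hv k)) atTop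
      (𝓝 (Projectivization.mk ℝ x hx)) := by
  have h1 : Tendsto (fun k => (⟨v k, hv k⟩ : {v : Fin n → ℝ // v ≠ 0})) atTop (𝓝 ⟨x, hx⟩) := by
    rw [tendsto_subtype_rng]; exact h
  exact (continuous_mk.tendsto _).comp h1

/-- homogeneous functions of degree two give functions on the projective space -/
noncomputable def ratio (q : (Fin n → ℝ) → ℝ) (hq : ∀ (t : ℝ) v, q (t • v) = t ^ 2 * q v)
    (x : ℙ ℝ (Fin n → ℝ)) : ℝ :=
  Projectivization.lift (fun v => q v.1 / nrm v.1) (by
    rintro ⟨a, ha⟩ ⟨b, hb⟩ t h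
    simp only at h ⊢
    subst h
    have ht : t ≠ 0 := by rintro rfl; simp at ha
    rw [hq, nrm_smul, mul_div_mul_left _ _ (pow_ne_zero 2 ht)]) x

lemma ratio_mk (q : (Fin n → ℝ) → ℝ) (hq : ∀ (t : ℝ) v, q (t • v) = t ^ 2 * q v)
    (v : Fin n → ℝ) (hv : v ≠ 0) : ratio q hq (Projectivization.mk ℝ v hv) = q v / nrm v := rfl

lemma continuous_ratio {q : (Fin n → ℝ) → ℝ} (hc : Continuous q)
    (hq : ∀ (t : ℝ) v, q (t • v) = t ^ 2 * q v) : Continuous (ratio q hq) := by
  refine continuous_coinduced_dom.2 ?_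
  show Continuous fun v : {v : Fin n → ℝ // v ≠ 0} => q v.1 / nrm v.1
  exact (hc.comp continuous_subtype_val).div (continuous_nrm.comp continuous_subtype_val)
    fun v => (nrm_pos v.2).ne'

lemma tendsto_ratio {q : (Fin n → ℝ) → ℝ} (hc : Continuous q)
    (hq : ∀ (t : ℝ) v, q (t • v) = t ^ 2 * q v) {ι : Type*} {l : Filter ι}
    {u : ι → ℙ ℝ (Fin n → ℝ)} {x : ℙ ℝ (Fin n → ℝ)} (h : Tendsto u l (𝓝 x)) :
    Tendsto (fun k => ratio q hq (u k)) l (𝓝 (ratio q hq x)) :=
  ((continuous_ratio hc hq).tendsto x).comp h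

/-- a convergent sequence avoiding its limit has an injective subsequence, in a space with closed
points -/
lemma exists_injective_subseq {X : Type*} [TopologicalSpace X] [T1Space X] {u : ℕ → X} {x : X}
    (h : Tendsto u atTop (𝓝 x)) (hne : ∀ k, u k ≠ x) :
    ∃ φ : ℕ → ℕ, StrictMono φ ∧ Function.Injective (u ∘ φ) := by
  have h1 : ∀ s : Finset ℕ, (∀ m ∈ s, True) → ∃ k, True ∧ ∀ m ∈ s, m < k ∧ u m ≠ u k := by
    intro s _
    have h2 : ∀ᶠ k in atTop, ∀ m ∈ s, m < k ∧ u m ≠ u k := by
      rw [eventually_all_finset]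
      intro m _
      refine (eventually_gt_atTop m).and ?_
      have := h.eventually (isOpen_ne.mem_nhds (hne m).symm)
      exact this.mono fun k hk => fun h3 => hk h3.symm
    obtain ⟨k, hk⟩ := h2.exists
    exact ⟨k, trivial, hk⟩
  obtain ⟨f, -, hf⟩ := exists_seq_of_forall_finset_exists (fun _ => True)
    (fun m k => m < k ∧ u m ≠ u k) h1
  refine ⟨f, fun a b hab => (hf a b hab).1, fun a b hab => ?_⟩
  rcases lt_trichotomy a b with h3 | h3 | h3
  · exact absurd hab (hf a b h3).2
  · exact h3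
  · exact absurd hab.symm (hf b a h3).2

/-- the entries `v_a v_b` separate the points of the projective space -/
lemma ratio_sep {x y : ℙ ℝ (Fin n → ℝ)}
    (h : ∀ a b, ratio (fun v => v a * v b) (fun t v => by simp; ring) x =
      ratio (fun v => v a * v b) (fun t v => by simp; ring) y) : x = y := by
  induction x using Projectivization.ind with
  | h v hv =>
    induction y using Projectivization.ind with
    | h w hw =>
      simp only [ratio_mk] at h
      obtain ⟨i, hi⟩ := Function.ne_iff.1 hw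
      have hi' : w i ≠ 0 := hi
      have hnv := nrm_pos hv
      have hnw := nrm_pos hw
      have hvi : v i ≠ 0 := by
        intro h0
        have h3 : w i * w i / nrm w = 0 := by rw [← h i i, h0]; simp
        exact (div_pos (mul_self_pos.2 hi') hnw).ne' h3
      rw [Projectivization.mk_eq_mk_iff']
      refine ⟨nrm v * w i / (nrm w * v i), ?_⟩
      ext a
      have h1 := h a i
      rw [div_eq_div_iff hnv.ne' hnw.ne'] at h1
      simp only [Pi.smul_apply, smul_eq_mul]
      have h2 := h i i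
      rw [div_eq_div_iff hnv.ne' hnw.ne'] at h2
      field_simp
      nlinarith [h1, h2]

instance : T2Space (ℙ ℝ (Fin n → ℝ)) := by
  refine T2Space.of_injective_continuous (Y := Fin n → Fin n → ℝ)
    (f := fun x a b => ratio (fun v => v a * v b) (fun t v => by simp; ring) x) ?_ ?_
  · intro x y h
    exact ratio_sep fun a b => congrFun (congrFun h a) b
  · refine continuous_pi fun a => continuous_pi fun b => ?_
    exact continuous_ratio (by fun_prop) _

lemma act_mk (g : (Fin n → ℝ) ≃ₗ[ℝ] (Fin n → ℝ)) (v : Fin n → ℝ) (hv : v ≠ 0) :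
    act g (Projectivization.mk ℝ v hv) = Projectivization.mk ℝ (g v) (by simpa using hv) := rfl

lemma act_mul (g h : (Fin n → ℝ) ≃ₗ[ℝ] (Fin n → ℝ)) (x : ℙ ℝ (Fin n → ℝ)) :
    act (g * h) x = act g (act h x) := by
  induction x using Projectivization.ind with
  | h v hv => rfl

lemma act_one (x : ℙ ℝ (Fin n → ℝ)) : act (1 : (Fin n → ℝ) ≃ₗ[ℝ] (Fin n → ℝ)) x = x := by
  induction x using Projectivization.ind with
  | h v hv => rfl

lemma continuous_act (g : (Fin n → ℝ) ≃ₗ[ℝ] (Fin n → ℝ)) : Continuous (act g) := by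
  refine continuous_coinduced_dom.2 ?_
  have h1 : Continuous (fun v : {v : Fin n → ℝ // v ≠ 0} =>
      (⟨g v.1, by simpa using v.2⟩ : {v : Fin n → ℝ // v ≠ 0})) :=
    Continuous.subtype_mk ((LinearMap.continuous_of_finiteDimensional
      (g : (Fin n → ℝ) →ₗ[ℝ] (Fin n → ℝ))).comp continuous_subtype_val) _
  exact continuous_mk.comp h1

end Pool.Agent.R893.LR
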