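import Pool.Agent.R893.LR.Topo

/-!
# The ideal triangle group
-/

namespace Pool.Agent.R893.LR

open scoped LinearAlgebra.Projectivization
open Filter Topology

/-- The universal Coxeter system of rank three: all `m_{st} = ∞`, all `B_{st} = -1`. -/
noncomputable def tri : GeomCoxeter 3 where
  M := { M := fun s t => if s = t then 1 else 0
         isSymm := Matrix.IsSymm.ext fun s t => by simp [eq_comm]
         diagonal := by intro i; simp
         off_diagonal := by intro i j h; simp [h] }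
  B := fun s t => if s = t then 1 else -1
  symm := by intro s t; simp [eq_comm]
  diag := by intro s; simp
  finite := by intro s t h h2; simp [h] at h2
  infinite := by intro s t h _; simp [h]

/-- vectors of `ℝ^3` -/
abbrev V3 := Fin 3 → ℝ

lemma form_tri (x y : V3) : tri.form x y = x 0 * y 0 + x 1 * y 1 + x 2 * y 2
    - (x 0 * y 1 + x 1 * y 0 + x 0 * y 2 + x 2 * y 0 + x 1 * y 2 + x 2 * y 1) := by
  simp [GeomCoxeter.form, tri, Fin.sum_univ_succ]
  ring

lemma tri_lorentzian : tri.Lorentzian := by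
  refine ⟨![1, 1, 1], ?_, ?_⟩
  · rw [form_tri]; simp; norm_num
  · intro x hx h
    rw [form_tri] at h ⊢
    simp at h
    have h2 : x 2 = - x 0 - x 1 := by linarith
    obtain ⟨i, hi⟩ := Function.ne_iff.1 hx
    rw [h2]
    have h3 : 0 < x 0 ^ 2 + x 1 ^ 2 := by
      by_contra h4
      have h5 : x 0 ^ 2 + x 1 ^ 2 = 0 := le_antisymm (not_lt.1 h4) (by positivity)
      have h6 : x 0 = 0 := by nlinarith [sq_nonneg (x 0), sq_nonneg (x 1)]
      have h7 : x 1 = 0 := by nlinarith [sq_nonneg (x 0), sq_nonneg (x 1)]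
      have h8 : x 2 = 0 := by rw [h2, h6, h7]; ring
      fin_cases i
      · exact hi h6
      · exact hi h7
      · exact hi h8
    nlinarith [sq_nonneg (x 0), sq_nonneg (x 1), sq_nonneg (x 0 + x 1)]

lemma refl0 (x : V3) : tri.refl 0 x = ![-x 0 + 2 * x 1 + 2 * x 2, x 1, x 2] := by
  ext i
  simp only [GeomCoxeter.refl, form_tri, GeomCoxeter.root]
  fin_cases i <;> simp
  ring

lemma refl1 (x : V3) : tri.refl 1 x = ![x 0, -x 1 + 2 * x 0 + 2 * x 2, x 2] := by
  ext i
  simp only [GeomCoxeter.refl, form_tri, GeomCoxeter.root]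
  fin_cases i <;> simp
  ring

lemma refl2 (x : V3) : tri.refl 2 x = ![x 0, x 1, -x 2 + 2 * x 0 + 2 * x 1] := by
  ext i
  simp only [GeomCoxeter.refl, form_tri, GeomCoxeter.root]
  fin_cases i <;> simp
  ring

lemma refl_cases {P : (V3 → V3) → Prop} (h0 : P (tri.refl 0)) (h1 : P (tri.refl 1))
    (h2 : P (tri.refl 2)) (s : Fin 3) : P (tri.refl s) := by
  fin_cases s
  · exact h0
  · exact h1
  · exact h2

lemma refl_refl (s : Fin 3) (x : V3) : tri.refl s (tri.refl s x) = x := by
  refine refl_cases (P := fun f => f (f x) = x) ?_ ?_ ?_ s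
  · rw [refl0, refl0]; ext i; fin_cases i <;> simp; ring
  · rw [refl1, refl1]; ext i; fin_cases i <;> simp; ring
  · rw [refl2, refl2]; ext i; fin_cases i <;> simp; ring

lemma refl_form (s : Fin 3) (x y : V3) : tri.form (tri.refl s x) (tri.refl s y) = tri.form x y := by
  refine refl_cases (P := fun f => tri.form (f x) (f y) = tri.form x y) ?_ ?_ ?_ s
  · rw [refl0, refl0, form_tri, form_tri]; simp; ring
  · rw [refl1, refl1, form_tri, form_tri]; simp; ring
  · rw [refl2, refl2, form_tri, form_tri]; simp; ring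

/-- integral vectors -/
def IsInt (x : V3) : Prop := ∀ i, ∃ m : ℤ, x i = m

lemma refl_int (s : Fin 3) {x : V3} (hx : IsInt x) : IsInt (tri.refl s x) := by
  obtain ⟨a, ha⟩ := hx 0
  obtain ⟨b, hb⟩ := hx 1
  obtain ⟨c, hc⟩ := hx 2
  refine refl_cases (P := fun f => IsInt (f x)) ?_ ?_ ?_ s
  · rw [refl0]; intro i; fin_cases i
    · exact ⟨-a + 2 * b + 2 * c, by simp [ha, hb, hc]⟩
    · exact ⟨b, by simp [hb]⟩
    · exact ⟨c, by simp [hc]⟩
  · rw [refl1]; intro i; fin_cases i
    · exact ⟨a, by simp [ha]⟩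
    · exact ⟨-b + 2 * a + 2 * c, by simp [ha, hb, hc]⟩
    · exact ⟨c, by simp [hc]⟩
  · rw [refl2]; intro i; fin_cases i
    · exact ⟨a, by simp [ha]⟩
    · exact ⟨b, by simp [hb]⟩
    · exact ⟨-c + 2 * a + 2 * b, by simp [ha, hb, hc]⟩

lemma W_prop {g : V3 ≃ₗ[ℝ] V3} (hg : g ∈ tri.W) :
    (∀ x, IsInt x → IsInt (g x)) ∧ (∀ x, IsInt x → IsInt (g⁻¹ x)) ∧
      ∀ x y, tri.form (g x) (g y) = tri.form x y := by
  unfold GeomCoxeter.W at hg
  induction hg using Subgroup.closure_induction with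
  | mem g hg =>
    obtain ⟨s, hs⟩ := hg
    have hinv : ∀ x, g⁻¹ x = tri.refl s x := by
      intro x
      apply g.injective
      show g (g.symm x) = _
      rw [LinearEquiv.apply_symm_apply, hs, refl_refl]
    refine ⟨fun x hx => ?_, fun x hx => ?_, fun x y => ?_⟩
    · rw [hs]; exact refl_int s hx
    · rw [hinv]; exact refl_int s hx
    · rw [hs, hs, refl_form]
  | one => exact ⟨fun x hx => hx, fun x hx => hx, fun x y => rfl⟩
  | mul g h _ _ ihg ihh =>
    refine ⟨fun x hx => ihg.1 _ (ihh.1 _ hx), fun x hx => ?_, fun x y => ?_⟩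
    · rw [mul_inv_rev]
      exact ihh.2.1 _ (ihg.2.1 _ hx)
    · show tri.form (g (h x)) (g (h y)) = _
      rw [ihg.2.2, ihh.2.2]
  | inv g _ ih =>
    refine ⟨ih.2.1, fun x hx => ?_, fun x y => ?_⟩
    · rw [inv_inv]; exact ih.1 x hx
    · rw [← ih.2.2]
      show tri.form (g (g.symm x)) (g (g.symm y)) = _
      rw [LinearEquiv.apply_symm_apply, LinearEquiv.apply_symm_apply]

/-- the generators as linear equivalences -/
noncomputable def sE (s : Fin 3) : V3 ≃ₗ[ℝ] V3 :=
  LinearEquiv.ofInvolutive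
    { toFun := tri.refl s
      map_add' := by
        intro x y
        refine refl_cases (P := fun f => f (x + y) = f x + f y) ?_ ?_ ?_ s
        · rw [refl0, refl0, refl0]; ext i; fin_cases i <;> simp; ring
        · rw [refl1, refl1, refl1]; ext i; fin_cases i <;> simp; ring
        · rw [refl2, refl2, refl2]; ext i; fin_cases i <;> simp; ring
      map_smul' := by
        intro c x
        refine refl_cases (P := fun f => f (c • x) = c • f x) ?_ ?_ ?_ s
        · rw [refl0, refl0]; ext i; fin_cases i <;> simp; ring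
        · rw [refl1, refl1]; ext i; fin_cases i <;> simp; ring
        · rw [refl2, refl2]; ext i; fin_cases i <;> simp; ring } (refl_refl s)

lemma sE_apply (s : Fin 3) (x : V3) : sE s x = tri.refl s x := rfl

lemma sE_mem (s : Fin 3) : sE s ∈ tri.W := Subgroup.subset_closure ⟨s, fun _ => rfl⟩

/-- symmetric products of vectors of `ℝ^2` -/
def rr (a b c d : ℝ) : V3 := ![a * c, b * d, (a + b) * (c + d)]

/-- `T : (a, b) ↦ (a - 2 b, b)` -/
noncomputable def T : V3 ≃ₗ[ℝ] V3 := sE 0 * sE 2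

/-- `S : (a, b) ↦ (a, b - 2 a)` -/
noncomputable def S : V3 ≃ₗ[ℝ] V3 := sE 1 * sE 2

lemma T_mem : T ∈ tri.W := tri.W.mul_mem (sE_mem 0) (sE_mem 2)
lemma S_mem : S ∈ tri.W := tri.W.mul_mem (sE_mem 1) (sE_mem 2)

lemma T_rr (a b c d : ℝ) : T (rr a b c d) = rr (a - 2 * b) b (c - 2 * d) d := by
  show tri.refl 0 (tri.refl 2 _) = _
  rw [refl2, refl0]
  ext i; fin_cases i <;> simp [rr] <;> ring

lemma S_rr (a b c d : ℝ) : S (rr a b c d) = rr a (b - 2 * a) c (d - 2 * c) := by
  show tri.refl 1 (tri.refl 2 _) = _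
  rw [refl2, refl1]
  ext i; fin_cases i <;> simp [rr] <;> ring

lemma Tpow_rr (n : ℕ) (a b c d : ℝ) :
    (T ^ n) (rr a b c d) = rr (a - 2 * n * b) b (c - 2 * n * d) d := by
  induction n with
  | zero => simp
  | succ n ih =>
    rw [pow_succ']
    show T ((T ^ n) _) = _
    rw [ih, T_rr]
    push_cast
    congr 1 <;> ring

lemma Spow_rr (n : ℕ) (a b c d : ℝ) :
    (S ^ n) (rr a b c d) = rr a (b - 2 * n * a) c (d - 2 * n * c) := by
  induction n with
  | zero => simp
  | succ n ih =>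
    rw [pow_succ']
    show S ((S ^ n) _) = _
    rw [ih, S_rr]
    push_cast
    congr 1 <;> ring

end Pool.Agent.R893.LR
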